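import Mathlib
import Pool.Agent.H41.Eis.Divisor

/-!
Module `Tor` (100 lines). The number of `k`-torsion units modulo `n` is `O(n^ε)`.

PROOF. For a prime power `p ^ e` the group `(ZMod (p^e))ˣ` has at most `2 * k` elements with
`u ^ k = 1`: for `p` odd it is cyclic (`ZMod.isCyclic_units_of_prime_pow`,
`IsCyclic.card_pow_eq_one_le`: at most `k`); for `p = 2` the unit group of `ZMod (2^e)`, `e ≥ 2`,
has a cyclic subgroup of index 2 (kernel of reduction modulo 4, generated by 5, see the file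
Mathlib/RingTheory/ZMod/UnitsCyclic.lean, e.g. `ZMod.orderOf_five`), so at most `k` solutions in
each of the two cosets (two solutions in one coset differ by a torsion element of the cyclic
subgroup). Any bound depending only on `k` (for instance `4 * k ^ 2`) is good enough: e.g. from
`w ≡ 1 mod 4`, `w ^ k ≡ 1 mod 2^e` one gets `w ≡ 1 mod 2^(e - v_2(k))` (lifting the exponent).
By the Chinese remainder theorem (`ZMod.chineseRemainder`, `Units.mapEquiv`, `MulEquiv.prodUnits`)
the number is submultiplicative over coprime factors, so it is at most `M ^ ω(n)` with `M = 2k`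
(`Nat.recOnPosPrimePosCoprime` or induction over the factorization), `M ≤ 2 ^ h` for some `h`,
`2 ^ ω(n) ≤ d(n)` and `d(n) ≤ C n^(ε/h)` (`divisor_bound`).
-/

set_option autoImplicit false

namespace Pool.Agent.H6.PW

private theorem tor_group {G : Type*} [CommGroup G] [Finite G] (H : Subgroup G) [IsCyclic H]
    (k : ℕ) (hk : 1 ≤ k) : Nat.card {u : G // u ^ k = 1} ≤ k * H.index := by
  classical
  have := Fintype.ofFinite G
  have hH : Nat.card {u : H // u ^ k = 1} ≤ k := by
    rw [Nat.card_eq_fintype_card, Fintype.card_subtype]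
    exact IsCyclic.card_pow_eq_one_le hk
  have h1 : ∀ c : G ⧸ H, Nat.card {u : {u : G // u ^ k = 1} // (QuotientGroup.mk u.1 : G ⧸ H) = c} ≤
      k := by
    intro c
    by_cases hne : Nonempty {u : {u : G // u ^ k = 1} // (QuotientGroup.mk u.1 : G ⧸ H) = c}
    · obtain ⟨u0⟩ := hne
      refine le_trans ?_ hH
      have hmem : ∀ u : {u : {u : G // u ^ k = 1} // (QuotientGroup.mk u.1 : G ⧸ H) = c},
          u0.1.1⁻¹ * u.1.1 ∈ H := fun u =>
        QuotientGroup.eq.1 (u0.2.trans u.2.symm)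
      refine Nat.card_le_card_of_injective
        (fun u => ⟨⟨u0.1.1⁻¹ * u.1.1, hmem u⟩, ?_⟩) ?_
      · apply Subtype.ext
        simp only [SubmonoidClass.mk_pow, OneMemClass.coe_one]
        rw [mul_pow, inv_pow, u0.1.2, u.1.2, inv_one, one_mul]
      · intro u v huv
        have h2 : u0.1.1⁻¹ * u.1.1 = u0.1.1⁻¹ * v.1.1 := by
          have := congrArg (fun w : {u : H // u ^ k = 1} => (w.1 : G)) huv
          exact this
        exact Subtype.ext (Subtype.ext (mul_left_cancel h2))
    · have h3 : IsEmpty {u : {u : G // u ^ k = 1} // (QuotientGroup.mk u.1 : G ⧸ H) = c} :=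
        not_nonempty_iff.1 hne
      rw [Nat.card_of_isEmpty]
      exact Nat.zero_le _
  have h2 : Nat.card {u : G // u ^ k = 1} =
      ∑ c : G ⧸ H, Nat.card {u : {u : G // u ^ k = 1} // (QuotientGroup.mk u.1 : G ⧸ H) = c} := by
    rw [← Nat.card_sigma]
    exact Nat.card_congr (Equiv.sigmaFiberEquiv
      (fun u : {u : G // u ^ k = 1} => (QuotientGroup.mk u.1 : G ⧸ H))).symm
  rw [h2]
  calc ∑ c : G ⧸ H, Nat.card {u : {u : G // u ^ k = 1} // (QuotientGroup.mk u.1 : G ⧸ H) = c}
      ≤ ∑ _c : G ⧸ H, k := Finset.sum_le_sum fun c _ => h1 c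
    _ = k * H.index := by
        rw [Finset.sum_const, smul_eq_mul, Finset.card_univ, ← Nat.card_eq_fintype_card, mul_comm]
        rfl

private theorem tor_prime_pow (k : ℕ) (hk : 1 ≤ k) (p e : ℕ) (hp : p.Prime) :
    Nat.card {u : (ZMod (p ^ e))ˣ // u ^ k = 1} ≤ 2 * k := by
  have : NeZero (p ^ e) := ⟨pow_ne_zero _ hp.ne_zero⟩
  have hcyc : IsCyclic (ZMod (p ^ e))ˣ →
      Nat.card {u : (ZMod (p ^ e))ˣ // u ^ k = 1} ≤ 2 * k := by
    intro hc
    have := Fintype.ofFinite (ZMod (p ^ e))ˣ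
    classical
    rw [Nat.card_eq_fintype_card, Fintype.card_subtype]
    exact (IsCyclic.card_pow_eq_one_le hk).trans (by omega)
  by_cases hp2 : p = 2
  · subst hp2
    rcases lt_or_ge e 2 with he | he
    · exact hcyc ((ZMod.isCyclic_units_two_pow_iff e).2 he.le)
    · obtain ⟨n, rfl⟩ : ∃ n, e = n + 2 := ⟨e - 2, by omega⟩
      have hcop : Nat.Coprime 5 (2 ^ (n + 2)) := Nat.Coprime.pow_right _ (by norm_num)
      set g : (ZMod (2 ^ (n + 2)))ˣ := ZMod.unitOfCoprime 5 hcop with hg
      have hord : orderOf g = 2 ^ n := by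
        rw [← orderOf_units, hg, ZMod.coe_unitOfCoprime]
        exact_mod_cast ZMod.orderOf_five n
      have hcard : Nat.card (ZMod (2 ^ (n + 2)))ˣ = 2 ^ (n + 1) := by
        rw [Nat.card_eq_fintype_card, ZMod.card_units_eq_totient,
          Nat.totient_prime_pow_succ Nat.prime_two]
        norm_num
      have hidx : (Subgroup.zpowers g).index = 2 := by
        have h1 := (Subgroup.zpowers g).card_mul_index
        rw [Nat.card_zpowers, hord, hcard] at h1
        have h3 : 2 ^ n * (Subgroup.zpowers g).index = 2 ^ n * 2 := h1.trans (pow_succ 2 n)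
        exact Nat.eq_of_mul_eq_mul_left (by positivity) h3
      have h2 := tor_group (Subgroup.zpowers g) k hk
      rw [hidx] at h2
      omega
  · exact hcyc (ZMod.isCyclic_units_of_prime_pow p hp hp2 e)

private theorem tor_mul (k a b : ℕ) (ha : 1 < a) (hb : 1 < b) (hab : Nat.Coprime a b) :
    Nat.card {u : (ZMod (a * b))ˣ // u ^ k = 1} ≤
      Nat.card {u : (ZMod a)ˣ // u ^ k = 1} * Nat.card {u : (ZMod b)ˣ // u ^ k = 1} := by
  have : NeZero a := ⟨by omega⟩
  have : NeZero b := ⟨by omega⟩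
  set E : (ZMod (a * b))ˣ ≃* (ZMod a)ˣ × (ZMod b)ˣ :=
    (Units.mapEquiv (ZMod.chineseRemainder hab).toMulEquiv).trans MulEquiv.prodUnits with hE
  rw [← Nat.card_prod]
  refine Nat.card_le_card_of_injective
    (fun u => (⟨(E u.1).1, ?_⟩, ⟨(E u.1).2, ?_⟩)) ?_
  · have h1 : (E u.1) ^ k = 1 := by rw [← map_pow, u.2, map_one]
    exact congrArg Prod.fst h1
  · have h1 : (E u.1) ^ k = 1 := by rw [← map_pow, u.2, map_one]
    exact congrArg Prod.snd h1
  · intro u v huv
    have h1 : (E u.1).1 = (E v.1).1 := by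
      have := congrArg (fun w => (w.1.1 : (ZMod a)ˣ)) huv
      exact this
    have h2 : (E u.1).2 = (E v.1).2 := by
      have := congrArg (fun w => (w.2.1 : (ZMod b)ˣ)) huv
      exact this
    exact Subtype.ext (E.injective (Prod.ext h1 h2))

theorem tor_bound (k : ℕ) (hk : 1 ≤ k) (ε : ℝ) (hε : 0 < ε) :
    ∃ C : ℝ, 1 ≤ C ∧ ∀ n : ℕ, 1 ≤ n →
      (Nat.card {u : (ZMod n)ˣ // u ^ k = 1} : ℝ) ≤ C * (n : ℝ) ^ ε := by
  obtain ⟨h, hh⟩ : ∃ h : ℕ, 2 * k ≤ 2 ^ h := ⟨2 * k, Nat.lt_two_pow_self.le⟩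
  have hh0 : h ≠ 0 := by
    rintro rfl
    omega
  have key : ∀ n : ℕ, 1 ≤ n → Nat.card {u : (ZMod n)ˣ // u ^ k = 1} ≤ n.divisors.card ^ h := by
    intro n
    induction n using Nat.recOnPosPrimePosCoprime with
    | prime_pow p e hp he =>
      intro _
      refine (tor_prime_pow k hk p e hp).trans (hh.trans ?_)
      rw [Nat.divisors_prime_pow hp, Finset.card_map, Finset.card_range]
      exact Nat.pow_le_pow_left (by omega) _
    | zero => intro h0; omega
    | one =>
      intro _
      have : Subsingleton {u : (ZMod 1)ˣ // u ^ k = 1} := by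
        have : Subsingleton (ZMod 1) := inferInstance
        infer_instance
      rw [Nat.divisors_one, Finset.card_singleton, one_pow]
      exact Finite.card_le_one_iff_subsingleton.2 this
    | coprime a b ha hb hab iha ihb =>
      intro _
      rw [hab.card_divisors_mul, mul_pow]
      exact (tor_mul k a b ha hb hab).trans (Nat.mul_le_mul (iha (by omega)) (ihb (by omega)))
  obtain ⟨C, hC1, hC⟩ := Pool.Agent.H41.Eis.divisor_bound (ε / h) (by positivity)
  refine ⟨C ^ h, one_le_pow₀ hC1, fun n hn => ?_⟩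
  have h1 := key n hn
  have h2 := hC n hn
  calc (Nat.card {u : (ZMod n)ˣ // u ^ k = 1} : ℝ) ≤ (n.divisors.card : ℝ) ^ h := by
        exact_mod_cast h1
    _ ≤ (C * (n : ℝ) ^ (ε / h)) ^ h := pow_le_pow_left₀ (by positivity) h2 _
    _ = C ^ h * (n : ℝ) ^ ε := by
        rw [mul_pow, ← Real.rpow_natCast ((n : ℝ) ^ (ε / h)) h, ← Real.rpow_mul (by positivity)]
        congr 2
        field_simp

end Pool.Agent.H6.PW
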