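import Mathlib
import Pool.Agent.H6.PW.Tor

/-!
Module `ClassCount` (120 lines; independent of the proof of `Tor`). Abstract counting of pairs
`(u, v)` by residue class of `u / v` modulo `n` and dyadic box.

PROOF. For `q ∈ T` let `c q ∈ (ZMod n)ˣ` be the class of `q.1` divided by the class of `q.2`
(`ZMod.unitOfCoprime`), and `key q = (c q, Nat.log 2 q.1, Nat.log 2 q.2)`.
From `n ∣ A u^k + s B v^k` and `A` invertible modulo `n` one gets `(c q)^k = -s B / A` in `ZMod n`,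
so for `q, q' ∈ T` the quotient `c q / c q'` has `k`-th power `1`: the set of classes `c q`,
`q ∈ T`, has at most `tor n` elements (empty, or fix `q' ∈ T` and inject
`c ↦ c / c q'` into the `k`-torsion), `tor n ≤ C1 n^ε`. There are at most
`(Nat.log 2 X + 1)^2 ≤ C2 X^ε` pairs of logarithms. So it is enough that every fibre of `key` has
at most 16 elements. Take a fibre, `w = 2^i ≤ u < 2w`, `v0 = 2^j ≤ v < 2 v0`. Two elements
`(u1,v1), (u2,v2)` of one fibre satisfy `u1 v2 ≡ u2 v1 (mod n)`; by hypothesis `hbox` either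
`u1 v2 = u2 v1` (then coprimality `hcop` gives `u1 = u2`, `v1 = v2`) or `w v0 ≤ 4` and then the
fibre is contained in `[w, 2w) × [v0, 2 v0)`, which has `w v0 ≤ 4` elements.
So each fibre has at most 4 elements.
-/

set_option autoImplicit false

namespace Pool.Agent.H6.PW

private theorem cc_log (ε : ℝ) (hε : 0 < ε) : ∃ C : ℝ, 1 ≤ C ∧ ∀ X : ℕ, 1 ≤ X →
    ((Nat.log 2 X + 1 : ℕ) : ℝ) ^ 2 ≤ C * (X : ℝ) ^ ε := by
  have hl2 : 0 < Real.log 2 := Real.log_pos one_lt_two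
  have hd : 0 < ε / 2 := by positivity
  refine ⟨(1 + 1 / (ε / 2 * Real.log 2)) ^ 2, ?_, ?_⟩
  · have : 0 ≤ 1 / (ε / 2 * Real.log 2) := by positivity
    nlinarith
  · intro X hX
    have hX' : (1 : ℝ) ≤ X := by exact_mod_cast hX
    have hX0 : (0 : ℝ) < X := by linarith
    have h1 : (1 : ℝ) ≤ (X : ℝ) ^ (ε / 2) := Real.one_le_rpow hX' hd.le
    have h2 : ((Nat.log 2 X : ℕ) : ℝ) * Real.log 2 ≤ Real.log X := by
      rw [← Real.log_pow]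
      refine Real.log_le_log (by positivity) ?_
      exact_mod_cast Nat.pow_log_le_self 2 (by omega)
    have h3 := Real.log_le_rpow_div hX0.le hd
    have h4 : ((Nat.log 2 X : ℕ) : ℝ) ≤ 1 / (ε / 2 * Real.log 2) * (X : ℝ) ^ (ε / 2) := by
      have h5 : ((Nat.log 2 X : ℕ) : ℝ) * Real.log 2 ≤ (X : ℝ) ^ (ε / 2) / (ε / 2) := h2.trans h3
      rw [← le_div_iff₀ hl2] at h5
      refine h5.trans (le_of_eq ?_)
      field_simp
    have h6 : ((Nat.log 2 X + 1 : ℕ) : ℝ) ≤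
        (1 + 1 / (ε / 2 * Real.log 2)) * (X : ℝ) ^ (ε / 2) := by
      push_cast
      linarith
    calc ((Nat.log 2 X + 1 : ℕ) : ℝ) ^ 2
        ≤ ((1 + 1 / (ε / 2 * Real.log 2)) * (X : ℝ) ^ (ε / 2)) ^ 2 :=
          pow_le_pow_left₀ (by positivity) h6 2
      _ = (1 + 1 / (ε / 2 * Real.log 2)) ^ 2 * (X : ℝ) ^ ε := by
          rw [mul_pow, ← Real.rpow_natCast, ← Real.rpow_natCast ((X : ℝ) ^ (ε / 2)),
            ← Real.rpow_mul hX0.le]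
          congr 2
          push_cast
          ring

open Classical in
/-- the class of `q.1 / q.2` -/
private noncomputable def ccU (n : ℕ) (q : ℕ × ℕ) : (ZMod n)ˣ :=
  if h : Nat.Coprime q.1 n ∧ Nat.Coprime q.2 n then
    ZMod.unitOfCoprime q.1 h.1 * (ZMod.unitOfCoprime q.2 h.2)⁻¹ else 1

private theorem ccU_mul {n : ℕ} {q : ℕ × ℕ} (h1 : Nat.Coprime q.1 n) (h2 : Nat.Coprime q.2 n) :
    (ccU n q : ZMod n) * (q.2 : ZMod n) = (q.1 : ZMod n) := by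
  unfold ccU
  rw [dif_pos ⟨h1, h2⟩, Units.val_mul, mul_assoc]
  have h3 : (q.2 : ZMod n) = (ZMod.unitOfCoprime q.2 h2 : (ZMod n)ˣ) := rfl
  rw [h3, Units.inv_mul, mul_one]
  rfl

private theorem ccU_unit {n : ℕ} {q : ℕ} (h2 : Nat.Coprime q n) : IsUnit (q : ZMod n) :=
  (ZMod.unitOfCoprime q h2).isUnit

private theorem cc_classes {k A B n : ℕ} (hn : 1 ≤ n) (hA : Nat.Coprime A n) (s : ℤ)
    (T : Finset (ℕ × ℕ))
    (hT : ∀ q ∈ T, Nat.Coprime q.1 n ∧ Nat.Coprime q.2 n ∧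
      (n : ℤ) ∣ (A : ℤ) * (q.1 : ℤ) ^ k + s * B * (q.2 : ℤ) ^ k) :
    (T.image (ccU n)).card ≤ Nat.card {u : (ZMod n)ˣ // u ^ k = 1} := by
  classical
  have : NeZero n := ⟨by omega⟩
  rcases T.eq_empty_or_nonempty with rfl | ⟨q0, hq0⟩
  · simp
  have hpow : ∀ q ∈ T, (A : ZMod n) * (ccU n q : ZMod n) ^ k = -((s : ZMod n) * B) := by
    intro q hq
    obtain ⟨h1, h2, h3⟩ := hT q hq
    have h4 : (((A : ℤ) * (q.1 : ℤ) ^ k + s * B * (q.2 : ℤ) ^ k : ℤ) : ZMod n) = 0 :=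
      (ZMod.intCast_zmod_eq_zero_iff_dvd _ n).2 h3
    push_cast at h4
    rw [← ccU_mul h1 h2, mul_pow] at h4
    have h5 : IsUnit ((q.2 : ZMod n) ^ k) := (ccU_unit h2).pow k
    refine h5.mul_right_cancel ?_
    linear_combination h4
  have heq : ∀ q ∈ T, (ccU n q) ^ k = (ccU n q0) ^ k := by
    intro q hq
    apply Units.ext
    rw [Units.val_pow_eq_pow_val, Units.val_pow_eq_pow_val]
    exact (ccU_unit hA).mul_left_cancel ((hpow q hq).trans (hpow q0 hq0).symm)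
  have hf : ∀ u : T.image (ccU n), ((u : (ZMod n)ˣ) * (ccU n q0)⁻¹) ^ k = 1 := by
    rintro ⟨u, hu⟩
    obtain ⟨q, hq, rfl⟩ := Finset.mem_image.1 hu
    rw [mul_pow, inv_pow, heq q hq, mul_inv_cancel]
  have hinj : Function.Injective (fun u : T.image (ccU n) =>
      (⟨(u : (ZMod n)ˣ) * (ccU n q0)⁻¹, hf u⟩ : {u : (ZMod n)ˣ // u ^ k = 1})) := by
    intro u v huv
    have h1 := congrArg Subtype.val huv
    exact Subtype.ext (mul_right_cancel h1)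
  have h2 := Nat.card_le_card_of_injective _ hinj
  rwa [Nat.card_eq_fintype_card, Fintype.card_coe] at h2

private theorem cc_fibre {n : ℕ} (F : Finset (ℕ × ℕ)) (i j : ℕ)
    (hF : ∀ q ∈ F, 1 ≤ q.1 ∧ 1 ≤ q.2 ∧ Nat.Coprime q.1 q.2 ∧ Nat.Coprime q.1 n ∧
      Nat.Coprime q.2 n ∧ Nat.log 2 q.1 = i ∧ Nat.log 2 q.2 = j)
    (hU : ∀ q ∈ F, ∀ q' ∈ F, ccU n q = ccU n q')
    (hbox : ∀ q ∈ F, ∀ q' ∈ F, ∀ w v : ℕ, 1 ≤ w → 1 ≤ v → w ≤ q.1 → q.1 < 2 * w → w ≤ q'.1 →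
          q'.1 < 2 * w → v ≤ q.2 → q.2 < 2 * v → v ≤ q'.2 → q'.2 < 2 * v →
          (n : ℤ) ∣ (q.1 : ℤ) * q'.2 - (q'.1 : ℤ) * q.2 → q.1 * q'.2 ≠ q'.1 * q.2 → w * v ≤ 4) :
    F.card ≤ 4 := by
  have hb : ∀ q ∈ F, 2 ^ i ≤ q.1 ∧ q.1 < 2 * 2 ^ i ∧ 2 ^ j ≤ q.2 ∧ q.2 < 2 * 2 ^ j := by
    intro q hq
    obtain ⟨h1, h2, -, -, -, hi, hj⟩ := hF q hq
    refine ⟨?_, ?_, ?_, ?_⟩
    · rw [← hi]; exact Nat.pow_log_le_self 2 (by omega)
    · rw [← hi, ← pow_succ']; exact Nat.lt_pow_succ_log_self one_lt_two _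
    · rw [← hj]; exact Nat.pow_log_le_self 2 (by omega)
    · rw [← hj, ← pow_succ']; exact Nat.lt_pow_succ_log_self one_lt_two _
  by_cases hall : ∀ q ∈ F, ∀ q' ∈ F, q.1 * q'.2 = q'.1 * q.2
  · have : F.card ≤ 1 := by
      rw [Finset.card_le_one]
      intro q hq q' hq'
      have h := hall q hq q' hq'
      obtain ⟨h1, h2, h3, -⟩ := hF q hq
      obtain ⟨h1', h2', h3', -⟩ := hF q' hq'
      have e1 : q.1 ∣ q'.1 := h3.dvd_of_dvd_mul_right ⟨q'.2, h.symm⟩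
      have e2 : q'.1 ∣ q.1 := h3'.dvd_of_dvd_mul_right ⟨q.2, h⟩
      have e3 : q.1 = q'.1 := Nat.dvd_antisymm e1 e2
      rw [e3] at h
      exact Prod.ext e3 (Nat.eq_of_mul_eq_mul_left (by omega) h).symm
    omega
  · push Not at hall
    obtain ⟨q, hq, q', hq', hne⟩ := hall
    obtain ⟨-, -, -, h4, h5, -⟩ := hF q hq
    obtain ⟨-, -, -, h4', h5', -⟩ := hF q' hq'
    have hdvd : (n : ℤ) ∣ (q.1 : ℤ) * q'.2 - (q'.1 : ℤ) * q.2 := by
      rw [← ZMod.intCast_zmod_eq_zero_iff_dvd]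
      push_cast
      rw [← ccU_mul h4 h5, ← ccU_mul h4' h5', hU q hq q' hq']
      ring
    obtain ⟨a1, a2, a3, a4⟩ := hb q hq
    obtain ⟨b1, b2, b3, b4⟩ := hb q' hq'
    have hwv := hbox q hq q' hq' (2 ^ i) (2 ^ j) (Nat.one_le_two_pow) (Nat.one_le_two_pow)
      a1 a2 b1 b2 a3 a4 b3 b4 hdvd hne
    have hsub : F ⊆ Finset.Ico (2 ^ i) (2 * 2 ^ i) ×ˢ Finset.Ico (2 ^ j) (2 * 2 ^ j) := by
      intro x hx
      obtain ⟨c1, c2, c3, c4⟩ := hb x hx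
      rw [Finset.mem_product, Finset.mem_Ico, Finset.mem_Ico]
      exact ⟨⟨c1, c2⟩, ⟨c3, c4⟩⟩
    refine (Finset.card_le_card hsub).trans ?_
    rw [Finset.card_product, Nat.card_Ico, Nat.card_Ico]
    have e1 : 2 * 2 ^ i - 2 ^ i = 2 ^ i := by omega
    have e2 : 2 * 2 ^ j - 2 ^ j = 2 ^ j := by omega
    rw [e1, e2]
    exact hwv

theorem class_count (k : ℕ) (hk : 1 ≤ k) (ε : ℝ) (hε : 0 < ε) :
    ∃ C : ℝ, 1 ≤ C ∧ ∀ X A B n : ℕ, 1 ≤ X → 1 ≤ n → Nat.Coprime A n → ∀ s : ℤ,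
      ∀ T : Finset (ℕ × ℕ),
        (∀ q ∈ T, 1 ≤ q.1 ∧ q.1 ≤ X ∧ 1 ≤ q.2 ∧ q.2 ≤ X ∧ Nat.Coprime q.1 q.2 ∧
          Nat.Coprime q.1 n ∧ Nat.Coprime q.2 n ∧
          (n : ℤ) ∣ (A : ℤ) * (q.1 : ℤ) ^ k + s * B * (q.2 : ℤ) ^ k) →
        (∀ q ∈ T, ∀ q' ∈ T, ∀ w v : ℕ, 1 ≤ w → 1 ≤ v → w ≤ q.1 → q.1 < 2 * w → w ≤ q'.1 →
          q'.1 < 2 * w → v ≤ q.2 → q.2 < 2 * v → v ≤ q'.2 → q'.2 < 2 * v →
          (n : ℤ) ∣ (q.1 : ℤ) * q'.2 - (q'.1 : ℤ) * q.2 → q.1 * q'.2 ≠ q'.1 * q.2 → w * v ≤ 4) →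
        (T.card : ℝ) ≤ C * (X : ℝ) ^ ε * (n : ℝ) ^ ε := by
  classical
  obtain ⟨C1, hC1, h1⟩ := tor_bound k hk ε hε
  obtain ⟨C2, hC2, h2⟩ := cc_log ε hε
  refine ⟨4 * (C1 * C2), by nlinarith, ?_⟩
  intro X A B n hX hn hA s T hT hbox
  set L := Nat.log 2 X + 1 with hL
  let key : ℕ × ℕ → (ZMod n)ˣ × (ℕ × ℕ) := fun q => (ccU n q, (Nat.log 2 q.1, Nat.log 2 q.2))
  have hfib : ∀ a ∈ T.image key, (T.filter fun x => key x = a).card ≤ 4 := by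
    intro a _
    refine cc_fibre (n := n) _ a.2.1 a.2.2 ?_ ?_ ?_
    · intro q hq
      obtain ⟨hqT, hqa⟩ := Finset.mem_filter.1 hq
      obtain ⟨c1, -, c3, -, c5, c6, c7, -⟩ := hT q hqT
      refine ⟨c1, c3, c5, c6, c7, ?_, ?_⟩
      · rw [← hqa]
      · rw [← hqa]
    · intro q hq q' hq'
      have e1 := (Finset.mem_filter.1 hq).2
      have e2 := (Finset.mem_filter.1 hq').2
      exact congrArg Prod.fst (e1.trans e2.symm)
    · intro q hq q' hq'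
      exact hbox q (Finset.mem_filter.1 hq).1 q' (Finset.mem_filter.1 hq').1
  have hcard := Finset.card_le_mul_card_image T 4 hfib
  have hsub : T.image key ⊆ (T.image (ccU n)) ×ˢ (Finset.range L ×ˢ Finset.range L) := by
    intro a ha
    obtain ⟨q, hq, rfl⟩ := Finset.mem_image.1 ha
    obtain ⟨c1, c2, c3, c4, -⟩ := hT q hq
    rw [Finset.mem_product, Finset.mem_product, Finset.mem_range, Finset.mem_range]
    refine ⟨Finset.mem_image_of_mem _ hq, ?_, ?_⟩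
    · change Nat.log 2 q.1 < Nat.log 2 X + 1
      exact Nat.lt_succ_of_le (Nat.log_mono_right c2)
    · change Nat.log 2 q.2 < Nat.log 2 X + 1
      exact Nat.lt_succ_of_le (Nat.log_mono_right c4)
  have hcard2 := Finset.card_le_card hsub
  rw [Finset.card_product, Finset.card_product, Finset.card_range] at hcard2
  have hcl := cc_classes (k := k) (B := B) hn hA s T fun q hq => by
    obtain ⟨-, -, -, -, -, c6, c7, c8⟩ := hT q hq
    exact ⟨c6, c7, c8⟩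
  have hfin : T.card ≤ 4 * (Nat.card {u : (ZMod n)ˣ // u ^ k = 1} * L ^ 2) := by
    refine hcard.trans (Nat.mul_le_mul_left 4 (hcard2.trans ?_))
    rw [pow_two]
    exact Nat.mul_le_mul_right _ hcl
  have hfin' : (T.card : ℝ) ≤
      4 * ((Nat.card {u : (ZMod n)ˣ // u ^ k = 1} : ℝ) * (L : ℝ) ^ 2) := by
    exact_mod_cast hfin
  have h1' := h1 n hn
  have h2' := h2 X hX
  calc (T.card : ℝ) ≤ 4 * ((Nat.card {u : (ZMod n)ˣ // u ^ k = 1} : ℝ) * (L : ℝ) ^ 2) := hfin'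
    _ ≤ 4 * ((C1 * (n : ℝ) ^ ε) * (C2 * (X : ℝ) ^ ε)) := by gcongr
    _ = 4 * (C1 * C2) * (X : ℝ) ^ ε * (n : ℝ) ^ ε := by ring

end Pool.Agent.H6.PW
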