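import Mathlib

/-!
Definitions for MP_89e8ce_nt (powerful sums of powerful numbers).
-/

set_option autoImplicit false

namespace Pool.Agent.H6.PW

/-- `n` is positive and `p ^ r` divides `n` for every prime `p` dividing `n`. -/
def Powerful (r n : ℕ) : Prop := 0 < n ∧ ∀ p : ℕ, p.Prime → p ∣ n → p ^ r ∣ n

/-- the family `A_r` of the problem: sets of `r - 2` distinct `r`-powerful integers with greatest
common divisor `1` whose sum is `r`-powerful. -/
def Fam (r : ℕ) : Set (Finset ℕ) :=
  {S | S.card = r - 2 ∧ S.gcd id = 1 ∧ (∀ s ∈ S, Powerful r s) ∧ Powerful r (∑ s ∈ S, s)}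

/-- the number of members of `A_r` whose sum is at most `X` -/
noncomputable def cnt (r X : ℕ) : ℕ := {S : Finset ℕ | S ∈ Fam r ∧ ∑ s ∈ S, s ≤ X}.ncard

end Pool.Agent.H6.PW
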