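import Mathlib
import Pool.Agent.H6.PW.Defs

/-!
Tuples: `m (some i)` are the summands, `m none` is the sum. `Tri` is the case `r = 4` with
coprimality, indexed by `Fin 3` (`m 0 + m 1 = m 2`).
-/

set_option autoImplicit false

namespace Pool.Agent.H6.PW

open Classical in
noncomputable def Tup (r X : ℕ) : Finset (Option (Fin (r - 2)) → ℕ) :=
  (Fintype.piFinset (fun _ => Finset.Icc 1 X)).filter
    (fun m => (∀ i, Powerful r (m i)) ∧ m none = ∑ i, m (some i))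

open Classical in
noncomputable def Tri (X : ℕ) : Finset (Fin 3 → ℕ) :=
  (Fintype.piFinset (fun _ => Finset.Icc 1 X)).filter
    (fun m => (∀ i, Powerful 4 (m i)) ∧ m 0 + m 1 = m 2 ∧ Nat.Coprime (m 0) (m 1))

/-- `x`, `t` decompose all `r`-powerful numbers -/
def IsDec (r : ℕ) (x : ℕ → ℕ) (t : ℕ → Fin (r - 1) → ℕ) : Prop :=
  (∀ m, 1 ≤ x m) ∧ (∀ m j, 1 ≤ t m j) ∧
    ∀ m, Powerful r m → m = (x m) ^ r * ∏ j, (t m j) ^ (r + 1 + (j : ℕ))

theorem mem_Tup {r X : ℕ} {m : Option (Fin (r - 2)) → ℕ} :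
    m ∈ Tup r X ↔ (∀ i, 1 ≤ m i ∧ m i ≤ X) ∧ (∀ i, Powerful r (m i)) ∧
      m none = ∑ i, m (some i) := by
  classical
  unfold Tup
  simp only [Finset.mem_filter, Fintype.mem_piFinset, Finset.mem_Icc]

theorem mem_Tri {X : ℕ} {m : Fin 3 → ℕ} :
    m ∈ Tri X ↔ (∀ i, 1 ≤ m i ∧ m i ≤ X) ∧ (∀ i, Powerful 4 (m i)) ∧ m 0 + m 1 = m 2 ∧
      Nat.Coprime (m 0) (m 1) := by
  classical
  unfold Tri
  simp only [Finset.mem_filter, Fintype.mem_piFinset, Finset.mem_Icc]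

end Pool.Agent.H6.PW
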