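import Mathlib
import Pool.Agent.H6.PW.TupDefs

/-!
Module `CntTup` (80 lines). A member `S` of `A_r` with sum at most `X` gives a tuple.

PROOF. `S.card = r - 2`: `f S = S.orderEmbOfFin h : Fin (r-2) ↪o ℕ` enumerates `S`. Send `S` to the
tuple `m` with `m (some i) = f S i`, `m none = ∑ s ∈ S, s` (`Finset.sum` over the range of the
embedding: `Finset.sum_coe_sort`, `Finset.range_orderEmbOfFin`, or
`Finset.map_orderEmbOfFin_univ`). It is injective, since `S` is the image of the first
coordinates. All entries are between `1` and the sum. Use `Set.ncard_le_ncard_of_injOn` with the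
finite set `(Tup r X : Set _)` and `Set.ncard_coe_finset`.
For `r = 4`: `m 0`, `m 1` the two elements, `m 2` the sum; `S = {m 0, m 1}`, `S.gcd id = 1` means
coprime. (`cnt_le_Tri`: `Finset.card_eq_two` or the same embedding with `Fin 2`.)
-/

set_option autoImplicit false

namespace Pool.Agent.H6.PW

private noncomputable def cntTupF (k : ℕ) (S : Finset ℕ) : Option (Fin k) → ℕ :=
  fun o => if h : S.card = k then
    (match o with
      | none => ∑ s ∈ S, s
      | some i => S.orderEmbOfFin h i) else 0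

private lemma cntTupF_none {k : ℕ} {S : Finset ℕ} (h : S.card = k) :
    cntTupF k S none = ∑ s ∈ S, s := by
  unfold cntTupF
  rw [dif_pos h]

private lemma cntTupF_some {k : ℕ} {S : Finset ℕ} (h : S.card = k) (i : Fin k) :
    cntTupF k S (some i) = S.orderEmbOfFin h i := by
  unfold cntTupF
  rw [dif_pos h]

private lemma cntTup_sum {k : ℕ} {S : Finset ℕ} (h : S.card = k) :
    ∑ s ∈ S, s = ∑ i, S.orderEmbOfFin h i := by
  conv_lhs => rw [← Finset.map_orderEmbOfFin_univ S h]
  rw [Finset.sum_map]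
  rfl

private lemma cntTup_eq {k : ℕ} {S T : Finset ℕ} (hS : S.card = k) (hT : T.card = k)
    (h : ∀ i, S.orderEmbOfFin hS i = T.orderEmbOfFin hT i) : S = T := by
  rw [← Finset.map_orderEmbOfFin_univ S hS, ← Finset.map_orderEmbOfFin_univ T hT]
  congr 1
  ext i
  exact h i

private lemma cntTup_mem_le {S : Finset ℕ} {s : ℕ} (hs : s ∈ S) : s ≤ ∑ s ∈ S, s :=
  Finset.single_le_sum (f := fun x : ℕ => x) (fun _ _ => Nat.zero_le _) hs

theorem cnt_le_Tup (r X : ℕ) (hr : 4 ≤ r) : cnt r X ≤ (Tup r X).card := by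
  classical
  unfold cnt
  rw [← Set.ncard_coe_finset]
  apply Set.ncard_le_ncard_of_injOn (cntTupF (r - 2))
  · rintro S ⟨⟨hc, hg, hp, hs⟩, hX⟩
    rw [Finset.mem_coe, mem_Tup]
    refine ⟨?_, ?_, ?_⟩
    · intro i
      rcases i with _ | i
      · rw [cntTupF_none hc]
        exact ⟨hs.1, hX⟩
      · rw [cntTupF_some hc]
        have hm := Finset.orderEmbOfFin_mem S hc i
        exact ⟨(hp _ hm).1, (cntTup_mem_le hm).trans hX⟩
    · intro i
      rcases i with _ | i
      · rw [cntTupF_none hc]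
        exact hs
      · rw [cntTupF_some hc]
        exact hp _ (Finset.orderEmbOfFin_mem S hc i)
    · rw [cntTupF_none hc, cntTup_sum hc]
      exact Finset.sum_congr rfl fun i _ => (cntTupF_some hc i).symm
  · rintro S ⟨⟨hc, -⟩, -⟩ T ⟨⟨hc', -⟩, -⟩ he
    apply cntTup_eq hc hc'
    intro i
    have := congrFun he (some i)
    rwa [cntTupF_some hc, cntTupF_some hc'] at this

private noncomputable def cntTriF (S : Finset ℕ) : Fin 3 → ℕ :=
  if h : S.card = 2 then ![S.orderEmbOfFin h 0, S.orderEmbOfFin h 1, ∑ s ∈ S, s] else 0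

private lemma cntTriF_eq {S : Finset ℕ} (h : S.card = 2) :
    cntTriF S = ![S.orderEmbOfFin h 0, S.orderEmbOfFin h 1, ∑ s ∈ S, s] := by
  unfold cntTriF
  rw [dif_pos h]

theorem cnt_le_Tri (X : ℕ) : cnt 4 X ≤ (Tri X).card := by
  classical
  unfold cnt
  rw [← Set.ncard_coe_finset]
  apply Set.ncard_le_ncard_of_injOn cntTriF
  · rintro S ⟨⟨hc, hg, hp, hs⟩, hX⟩
    have hc : S.card = 2 := hc
    rw [Finset.mem_coe, mem_Tri, cntTriF_eq hc]
    have h0 := Finset.orderEmbOfFin_mem S hc 0
    have h1 := Finset.orderEmbOfFin_mem S hc 1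
    refine ⟨?_, ?_, ?_, ?_⟩
    · intro i
      fin_cases i
      · exact ⟨(hp _ h0).1, (cntTup_mem_le h0).trans hX⟩
      · exact ⟨(hp _ h1).1, (cntTup_mem_le h1).trans hX⟩
      · exact ⟨hs.1, hX⟩
    · intro i
      fin_cases i
      · exact hp _ h0
      · exact hp _ h1
      · exact hs
    · have h2 := cntTup_sum hc
      rw [Fin.sum_univ_two] at h2
      show S.orderEmbOfFin hc 0 + S.orderEmbOfFin hc 1 = ∑ s ∈ S, s
      exact h2.symm
    · show Nat.Coprime (S.orderEmbOfFin hc 0) (S.orderEmbOfFin hc 1)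
      have h3 : Nat.gcd (S.orderEmbOfFin hc 0) (S.orderEmbOfFin hc 1) ∣ S.gcd id := by
        apply Finset.dvd_gcd
        intro b hb
        rw [← Finset.map_orderEmbOfFin_univ S hc, Finset.mem_map] at hb
        obtain ⟨i, -, rfl⟩ := hb
        fin_cases i
        · exact Nat.gcd_dvd_left _ _
        · exact Nat.gcd_dvd_right _ _
      rw [hg] at h3
      exact Nat.dvd_one.1 h3
  · rintro S ⟨⟨hc, -⟩, -⟩ T ⟨⟨hc', -⟩, -⟩ he
    have hc : S.card = 2 := hc
    have hc' : T.card = 2 := hc'
    rw [cntTriF_eq hc, cntTriF_eq hc'] at he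
    apply cntTup_eq hc hc'
    intro i
    fin_cases i
    · exact congrFun he 0
    · exact congrFun he 1

end Pool.Agent.H6.PW
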