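import Mathlib

/-!
Module `Gap` (70 lines). Two different solutions of `A u^k + s B v^k = n` (`s = 1` or `-1`) in one
residue class and in one dyadic box are impossible unless the box is tiny.

PROOF. Put `a = u1 * v2`, `b = u2 * v1`, `Δ = |a - b|`; `Δ ≥ n` because `n ∣ a - b ≠ 0`.
From the two equations
`A (a^k - b^k) = v2^k (n - s B v1^k) - v1^k (n - s B v2^k) = n (v2^k - v1^k)` and
`s B (a^k - b^k) = u1^k (n - A u2^k) - u2^k (n - A u1^k) = n (u1^k - u2^k)`.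
Since `a, b ≥ w v`, `|a^k - b^k| = Δ * ∑_{i<k} a^i b^(k-1-i) ≥ n * k * (w v)^(k-1)`
(`Commute.geom_sum₂` / `mul_geom_sum₂`, or prove `a^k - b^k ≥ (a-b) * (k * b^(k-1))` for `b ≤ a`
by induction). Hence `A k (w v)^(k-1) ≤ |v2^k - v1^k| ≤ (2v)^k` and
`B k (w v)^(k-1) ≤ (2w)^k`. Multiply and use `A, B ≥ 1`:
`k^2 (w v)^(2k-2) ≤ 4^k (w v)^k`, so `k^2 (w v)^(k-2) ≤ 4^k`, and with `k ≥ 4`, `k^2 ≥ 16`:
`(w v)^(k-2) ≤ 4^(k-2)`, i.e. `w v ≤ 4`. (`w, v ≥ 1`.)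
-/

set_option autoImplicit false

namespace Pool.Agent.H6.PW

private theorem Gap_pow (a b : ℤ) (hb : 0 ≤ b) (hab : b ≤ a) (k : ℕ) :
    (a - b) * (k * b ^ (k - 1)) ≤ a ^ k - b ^ k := by
  induction k with
  | zero => simp
  | succ k ih =>
    have e1 : a ^ (k + 1) - b ^ (k + 1) = a * (a ^ k - b ^ k) + (a - b) * b ^ k := by ring
    have hbk : 0 ≤ b ^ (k - 1) := pow_nonneg hb _
    have h0 : 0 ≤ (a - b) * (k * b ^ (k - 1)) :=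
      mul_nonneg (sub_nonneg.2 hab) (mul_nonneg (Nat.cast_nonneg k) hbk)
    have h1 : b * ((a - b) * (k * b ^ (k - 1))) ≤ a * (a ^ k - b ^ k) :=
      mul_le_mul hab ih h0 (hb.trans hab)
    have h2 : b * ((a - b) * (k * b ^ (k - 1))) = (a - b) * (k * b ^ k) := by
      rcases Nat.eq_zero_or_pos k with rfl | hk
      · simp
      · obtain ⟨j, rfl⟩ : ∃ j, k = j + 1 := ⟨k - 1, by omega⟩
        rw [Nat.add_sub_cancel, pow_succ]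
        ring
    rw [h2] at h1
    rw [e1, Nat.add_sub_cancel]
    push_cast
    nlinarith

private theorem Gap_main (k : ℕ) (hk : 4 ≤ k) (A B n u1 v1 u2 v2 w v : ℕ) (s : ℤ)
    (hs : s = 1 ∨ s = -1) (hA : 1 ≤ A) (hB : 1 ≤ B) (hn : 1 ≤ n) (hw : 1 ≤ w) (hv : 1 ≤ v)
    (h1 : (A : ℤ) * (u1 : ℤ) ^ k + s * B * (v1 : ℤ) ^ k = n)
    (h2 : (A : ℤ) * (u2 : ℤ) ^ k + s * B * (v2 : ℤ) ^ k = n)
    (hu1' : u1 < 2 * w) (hu2 : w ≤ u2) (hu2' : u2 < 2 * w)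
    (hv1 : v ≤ v1) (hv2' : v2 < 2 * v)
    (hlt : u2 * v1 < u1 * v2) (hd : (n : ℤ) ∣ (u1 : ℤ) * v2 - (u2 : ℤ) * v1) : w * v ≤ 4 := by
  obtain ⟨a, ha⟩ : ∃ a : ℤ, a = (u1 : ℤ) * v2 := ⟨_, rfl⟩
  obtain ⟨b, hb⟩ : ∃ b : ℤ, b = (u2 : ℤ) * v1 := ⟨_, rfl⟩
  have hba : b < a := by
    rw [ha, hb]
    exact_mod_cast hlt
  have hb0 : 0 ≤ b := by
    rw [hb]
    positivity
  have hn' : (n : ℤ) ≤ a - b := by
    apply Int.le_of_dvd (by linarith)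
    rw [ha, hb]
    exact hd
  have hnpos : (0 : ℤ) < n := by exact_mod_cast hn
  have hXb : ((w * v : ℕ) : ℤ) ≤ b := by
    rw [hb]
    push_cast
    exact mul_le_mul (by exact_mod_cast hu2) (by exact_mod_cast hv1) (by positivity)
      (by positivity)
  obtain ⟨K, hK⟩ : ∃ K : ℤ, K = k * ((w * v : ℕ) : ℤ) ^ (k - 1) := ⟨_, rfl⟩
  have hK0 : 0 ≤ K := by
    rw [hK]
    positivity
  have key : n * K ≤ a ^ k - b ^ k := by
    refine le_trans ?_ (Gap_pow a b hb0 hba.le k)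
    apply mul_le_mul hn' _ hK0 (by linarith)
    rw [hK]
    exact mul_le_mul_of_nonneg_left (pow_le_pow_left₀ (by positivity) hXb _) (by positivity)
  have hD0 : 0 ≤ a ^ k - b ^ k := le_trans (mul_nonneg hnpos.le hK0) key
  have e1 : (A : ℤ) * (a ^ k - b ^ k) = n * ((v2 : ℤ) ^ k - (v1 : ℤ) ^ k) := by
    rw [ha, hb, mul_pow, mul_pow]
    linear_combination (v2 : ℤ) ^ k * h1 - (v1 : ℤ) ^ k * h2
  have e2 : (B : ℤ) * (a ^ k - b ^ k) = n * (s * ((u1 : ℤ) ^ k - (u2 : ℤ) ^ k)) := by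
    have hss : s * s = 1 := by rcases hs with rfl | rfl <;> norm_num
    have e3 : s * ((B : ℤ) * (a ^ k - b ^ k)) = n * ((u1 : ℤ) ^ k - (u2 : ℤ) ^ k) := by
      rw [ha, hb, mul_pow, mul_pow]
      linear_combination (u1 : ℤ) ^ k * h2 - (u2 : ℤ) ^ k * h1
    calc (B : ℤ) * (a ^ k - b ^ k) = s * s * ((B : ℤ) * (a ^ k - b ^ k)) := by
          rw [hss, one_mul]
      _ = s * (s * ((B : ℤ) * (a ^ k - b ^ k))) := by ring
      _ = _ := by rw [e3]; ring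
  have hA' : (1 : ℤ) ≤ A := by exact_mod_cast hA
  have hB' : (1 : ℤ) ≤ B := by exact_mod_cast hB
  have f1 : K ≤ (v2 : ℤ) ^ k - (v1 : ℤ) ^ k := by
    have h3 : (n : ℤ) * K ≤ n * ((v2 : ℤ) ^ k - (v1 : ℤ) ^ k) := by
      rw [← e1]
      nlinarith
    exact le_of_mul_le_mul_left h3 hnpos
  have f2 : K ≤ s * ((u1 : ℤ) ^ k - (u2 : ℤ) ^ k) := by
    have h3 : (n : ℤ) * K ≤ n * (s * ((u1 : ℤ) ^ k - (u2 : ℤ) ^ k)) := by
      rw [← e2]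
      nlinarith
    exact le_of_mul_le_mul_left h3 hnpos
  have g1 : K ≤ ((2 * v : ℕ) : ℤ) ^ k := by
    have h3 : (v2 : ℤ) ^ k ≤ ((2 * v : ℕ) : ℤ) ^ k :=
      pow_le_pow_left₀ (by positivity) (by exact_mod_cast hv2'.le) k
    have h4 : (0 : ℤ) ≤ (v1 : ℤ) ^ k := by positivity
    linarith
  have g2 : K ≤ ((2 * w : ℕ) : ℤ) ^ k := by
    have h3 : (u1 : ℤ) ^ k ≤ ((2 * w : ℕ) : ℤ) ^ k :=
      pow_le_pow_left₀ (by positivity) (by exact_mod_cast hu1'.le) k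
    have h4 : (u2 : ℤ) ^ k ≤ ((2 * w : ℕ) : ℤ) ^ k :=
      pow_le_pow_left₀ (by positivity) (by exact_mod_cast hu2'.le) k
    have h5 : (0 : ℤ) ≤ (u1 : ℤ) ^ k := by positivity
    have h6 : (0 : ℤ) ≤ (u2 : ℤ) ^ k := by positivity
    rcases hs with rfl | rfl <;> linarith
  -- multiply
  have h7 : K * K ≤ ((2 * v : ℕ) : ℤ) ^ k * ((2 * w : ℕ) : ℤ) ^ k :=
    mul_le_mul g1 g2 hK0 (by positivity)
  have h8 : (k * (w * v) ^ (k - 1)) * (k * (w * v) ^ (k - 1)) ≤ (2 * v) ^ k * (2 * w) ^ k := by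
    rw [hK] at h7
    exact_mod_cast h7
  obtain ⟨j, rfl⟩ : ∃ j, k = j + 2 := ⟨k - 2, by omega⟩
  obtain ⟨X, hX⟩ : ∃ X, X = w * v := ⟨_, rfl⟩
  have hX1 : 1 ≤ X := by
    rw [hX]
    exact Nat.mul_pos hw hv
  rw [← hX] at h8 ⊢
  have h9 : (2 * v) ^ (j + 2) * (2 * w) ^ (j + 2) = X ^ (j + 2) * (16 * 4 ^ j) := by
    rw [← mul_pow, hX]
    have : 2 * v * (2 * w) = 4 * (w * v) := by ring
    rw [this, mul_pow, pow_add 4 j 2]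
    ring
  have h10 : (j + 2 + 0) * X ^ (j + 2 - 1) * ((j + 2) * X ^ (j + 2 - 1)) =
      X ^ (j + 2) * ((j + 2) * (j + 2) * X ^ j) := by
    have : j + 2 - 1 = j + 1 := by omega
    rw [this]
    ring
  rw [h9] at h8
  rw [add_zero] at h10
  rw [h10] at h8
  have h11 : (j + 2) * (j + 2) * X ^ j ≤ 16 * 4 ^ j :=
    Nat.le_of_mul_le_mul_left h8 (by positivity)
  have h12 : 16 ≤ (j + 2) * (j + 2) := by nlinarith
  have h13 : X ^ j ≤ 4 ^ j := by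
    have h14 : 16 * X ^ j ≤ (j + 2) * (j + 2) * X ^ j := Nat.mul_le_mul_right _ h12
    omega
  exact (Nat.pow_le_pow_iff_left (by omega)).1 h13

theorem gap (k : ℕ) (hk : 4 ≤ k) (A B n u1 v1 u2 v2 w v : ℕ) (s : ℤ) (hs : s = 1 ∨ s = -1)
    (hA : 1 ≤ A) (hB : 1 ≤ B) (hn : 1 ≤ n) (hw : 1 ≤ w) (hv : 1 ≤ v)
    (h1 : (A : ℤ) * (u1 : ℤ) ^ k + s * B * (v1 : ℤ) ^ k = n)
    (h2 : (A : ℤ) * (u2 : ℤ) ^ k + s * B * (v2 : ℤ) ^ k = n)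
    (hu1 : w ≤ u1) (hu1' : u1 < 2 * w) (hu2 : w ≤ u2) (hu2' : u2 < 2 * w)
    (hv1 : v ≤ v1) (hv1' : v1 < 2 * v) (hv2 : v ≤ v2) (hv2' : v2 < 2 * v)
    (hne : u1 * v2 ≠ u2 * v1) (hd : (n : ℤ) ∣ (u1 : ℤ) * v2 - (u2 : ℤ) * v1) : w * v ≤ 4 := by
  rcases Nat.lt_or_gt_of_ne hne with h | h
  · refine Gap_main k hk A B n u2 v2 u1 v1 w v s hs hA hB hn hw hv h2 h1 hu2' hu1 hu1' hv2 hv1'
      h ?_
    have h3 : (u2 : ℤ) * v1 - (u1 : ℤ) * v2 = -((u1 : ℤ) * v2 - (u2 : ℤ) * v1) := by ring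
    rw [h3]
    exact (dvd_neg).2 hd
  · exact Gap_main k hk A B n u1 v1 u2 v2 w v s hs hA hB hn hw hv h1 h2 hu1' hu2 hu2' hv1 hv2'
      h hd

end Pool.Agent.H6.PW
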