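import Mathlib
import Pool.Agent.H6.PW.ClassCount
import Pool.Agent.H6.PW.Gap

/-!
Module `CopCount` (50 lines; independent of the proofs of `ClassCount`, `Gap`). The number of
solutions of `A u^k + s B v^k = n` with `u`, `v` prime to `n`, when `A` is prime to `n`.

PROOF. `class_count`. Its hypotheses: a common prime factor of `u` and `v` divides `n`, which is
prime to `u`; so `u`, `v` are coprime. `n ∣ A u^k + s B v^k` is clear. The box condition is `gap`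
(the conclusion of `gap` with `(u1,v1) = q`, `(u2,v2) = q'`).
-/

set_option autoImplicit false

namespace Pool.Agent.H6.PW

theorem cop_count (k : ℕ) (hk : 4 ≤ k) (ε : ℝ) (hε : 0 < ε) :
    ∃ C : ℝ, 1 ≤ C ∧ ∀ X A B n : ℕ, 1 ≤ X → 1 ≤ A → 1 ≤ B → 1 ≤ n → Nat.Coprime A n →
      ∀ s : ℤ, (s = 1 ∨ s = -1) → ∀ T : Finset (ℕ × ℕ),
        (∀ q ∈ T, 1 ≤ q.1 ∧ q.1 ≤ X ∧ 1 ≤ q.2 ∧ q.2 ≤ X ∧ Nat.Coprime q.1 n ∧
          Nat.Coprime q.2 n ∧ (A : ℤ) * (q.1 : ℤ) ^ k + s * B * (q.2 : ℤ) ^ k = n) →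
        (T.card : ℝ) ≤ C * (X : ℝ) ^ ε * (n : ℝ) ^ ε := by
  obtain ⟨C, hC1, hC⟩ := class_count k (by omega) ε hε
  refine ⟨C, hC1, ?_⟩
  intro X A B n hX hA hB hn hAn s hs T hT
  refine hC X A B n hX hn hAn s T ?_ ?_
  · intro q hq
    obtain ⟨a1, a2, a3, a4, a5, a6, a7⟩ := hT q hq
    refine ⟨a1, a2, a3, a4, ?_, a5, a6, ?_⟩
    · by_contra hcop
      obtain ⟨p, hp, hp1, hp2⟩ := Nat.Prime.not_coprime_iff_dvd.1 hcop
      have hk0 : k ≠ 0 := by omega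
      have d1 : (p : ℤ) ∣ (q.1 : ℤ) ^ k := dvd_pow (Int.natCast_dvd_natCast.2 hp1) hk0
      have d2 : (p : ℤ) ∣ (q.2 : ℤ) ^ k := dvd_pow (Int.natCast_dvd_natCast.2 hp2) hk0
      have d3 : (p : ℤ) ∣ (n : ℤ) := by
        rw [← a7]
        exact dvd_add (Dvd.dvd.mul_left d1 _) (Dvd.dvd.mul_left d2 _)
      have d4 : p ∣ n := Int.natCast_dvd_natCast.1 d3
      have d5 : p ∣ 1 := by
        rw [← Nat.Coprime.gcd_eq_one a5]
        exact Nat.dvd_gcd hp1 d4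
      exact hp.one_lt.ne' (Nat.dvd_one.1 d5)
    · rw [a7]
  · intro q hq q' hq' w v hw hv b1 b2 b3 b4 b5 b6 b7 b8 b9 b10
    obtain ⟨_, _, _, _, _, _, a7⟩ := hT q hq
    obtain ⟨_, _, _, _, _, _, a7'⟩ := hT q' hq'
    exact gap k hk A B n q.1 q.2 q'.1 q'.2 w v s hs hA hB hn hw hv a7 a7' b1 b2 b3 b4 b5 b6 b7 b8
      b10 b9

/-- Counting pairs with a large modulus `D` instead of an exact equation.
PROOF. `class_count` with `n = D`: in the box condition `|q.1 q'.2 - q'.1 q.2|` is less than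
`4 w v ≤ 4 q.1 q.2 ≤ D` and divisible by `D`, so it is `0`, contradiction. -/
theorem mod_count (k : ℕ) (hk : 1 ≤ k) (ε : ℝ) (hε : 0 < ε) :
    ∃ C : ℝ, 1 ≤ C ∧ ∀ X A B D : ℕ, 1 ≤ X → 1 ≤ D → Nat.Coprime A D → ∀ s : ℤ,
      ∀ T : Finset (ℕ × ℕ),
        (∀ q ∈ T, 1 ≤ q.1 ∧ q.1 ≤ X ∧ 1 ≤ q.2 ∧ q.2 ≤ X ∧ Nat.Coprime q.1 q.2 ∧
          Nat.Coprime q.1 D ∧ Nat.Coprime q.2 D ∧
          (D : ℤ) ∣ (A : ℤ) * (q.1 : ℤ) ^ k + s * B * (q.2 : ℤ) ^ k ∧ 4 * (q.1 * q.2) ≤ D) →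
        (T.card : ℝ) ≤ C * (X : ℝ) ^ ε * (D : ℝ) ^ ε := by
  obtain ⟨C, hC1, hC⟩ := class_count k hk ε hε
  refine ⟨C, hC1, ?_⟩
  intro X A B D hX hD hAD s T hT
  refine hC X A B D hX hD hAD s T ?_ ?_
  · intro q hq
    obtain ⟨a1, a2, a3, a4, a5, a6, a7, a8, _⟩ := hT q hq
    exact ⟨a1, a2, a3, a4, a5, a6, a7, a8⟩
  · intro q hq q' hq' w v hw hv b1 b2 b3 b4 b5 b6 b7 b8 b9 b10
    exfalso
    obtain ⟨_, _, _, _, _, _, _, _, a9⟩ := hT q hq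
    have e1 : q.1 * q'.2 < 4 * (w * v) := by
      have : q.1 * q'.2 < (2 * w) * (2 * v) := Nat.mul_lt_mul'' b2 b8
      calc q.1 * q'.2 < (2 * w) * (2 * v) := this
        _ = 4 * (w * v) := by ring
    have e2 : q'.1 * q.2 < 4 * (w * v) := by
      have : q'.1 * q.2 < (2 * w) * (2 * v) := Nat.mul_lt_mul'' b4 b6
      calc q'.1 * q.2 < (2 * w) * (2 * v) := this
        _ = 4 * (w * v) := by ring
    have e3 : w * v ≤ q.1 * q.2 := Nat.mul_le_mul b1 b5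
    have e4 : 4 * (w * v) ≤ D := by omega
    have e5 : ((q.1 : ℤ) * q'.2 - (q'.1 : ℤ) * q.2) = 0 := by
      apply Int.eq_zero_of_abs_lt_dvd b9
      have f1 : (q.1 : ℤ) * q'.2 < D := by
        have : q.1 * q'.2 < D := lt_of_lt_of_le e1 e4
        exact_mod_cast this
      have f2 : (q'.1 : ℤ) * q.2 < D := by
        have : q'.1 * q.2 < D := lt_of_lt_of_le e2 e4
        exact_mod_cast this
      have f3 : (0 : ℤ) ≤ (q.1 : ℤ) * q'.2 := by positivity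
      have f4 : (0 : ℤ) ≤ (q'.1 : ℤ) * q.2 := by positivity
      rw [abs_lt]
      constructor <;> linarith
    apply b10
    have : (q.1 : ℤ) * q'.2 = (q'.1 : ℤ) * q.2 := by linarith
    exact_mod_cast this

end Pool.Agent.H6.PW
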