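import Mathlib
import Pool.Agent.H6.PW.Defs

/-!
Module `Decomp` (80 lines). Every `r`-powerful `m` is `x^r * ∏_{j < r-1} t_j^(r+1+j)`.

PROOF. For a prime `p ∣ m` the exponent `e = v_p(m)` is at least `r`. Write `e = q r + ρ`,
`0 ≤ ρ < r`, `q ≥ 1`. If `ρ = 0` give `p^q` to `x`; if `ρ ≥ 1` give `p^(q-1)` to `x` and `p` to
`t_(ρ-1)` (exponent `r + ρ = r + 1 + (ρ-1)`). Formally:
`x = ∏ p ∈ m.primeFactors, p ^ (if e_p % r = 0 then e_p / r else e_p / r - 1)` and
`t j = ∏ p ∈ m.primeFactors.filter (fun p => e_p % r = j + 1), p`; check the exponents prime by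
prime (`Finset.prod_comm`, `Nat.factorization_prod_pow_eq_self`). Induction with
`Nat.recOnPosPrimePosCoprime` also works (products of coprime `r`-powerful numbers).
The second statement: define the functions by choice (value 1 when `m` is not powerful).
-/

set_option autoImplicit false

namespace Pool.Agent.H6.PW

theorem decomp (r : ℕ) (hr : 2 ≤ r) (m : ℕ) (hm : Powerful r m) :
    ∃ x : ℕ, ∃ t : Fin (r - 1) → ℕ, 1 ≤ x ∧ (∀ j, 1 ≤ t j) ∧
      m = x ^ r * ∏ j, (t j) ^ (r + 1 + (j : ℕ)) := by
  obtain ⟨hm0, hm⟩ := hm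
  have hpt : ∀ p ∈ m.primeFactors, p ^ (m.factorization p)
      = (p ^ (if m.factorization p % r = 0 then m.factorization p / r
          else m.factorization p / r - 1)) ^ r *
        ∏ j : Fin (r - 1), (if m.factorization p % r = (j : ℕ) + 1 then p else 1)
          ^ (r + 1 + (j : ℕ)) := by
    intro p hp
    have hpp : p.Prime := Nat.prime_of_mem_primeFactors hp
    have hpm : p ∣ m := Nat.dvd_of_mem_primeFactors hp
    have he : r ≤ m.factorization p :=
      (hpp.pow_dvd_iff_le_factorization hm0.ne').1 (hm p hpp hpm)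
    have hdm := Nat.div_add_mod (m.factorization p) r
    have hq : 1 ≤ m.factorization p / r := (Nat.one_le_div_iff (by omega)).2 he
    have hlt : m.factorization p % r < r := Nat.mod_lt _ (by omega)
    generalize m.factorization p = e at *
    by_cases h0 : e % r = 0
    · rw [if_pos h0, Finset.prod_eq_one, mul_one, ← pow_mul]
      · congr 1
        rw [h0, add_zero] at hdm
        rw [mul_comm, hdm]
      · intro j _
        rw [h0, if_neg (by omega), one_pow]
    · rw [if_neg h0, Finset.prod_eq_single (⟨e % r - 1, by omega⟩ : Fin (r - 1))]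
      · rw [if_pos (by change e % r = e % r - 1 + 1; omega), ← pow_mul, ← pow_add]
        congr 1
        change e = (e / r - 1) * r + (r + 1 + (e % r - 1))
        obtain ⟨q, hq'⟩ : ∃ q, e / r = q + 1 := ⟨e / r - 1, by omega⟩
        rw [hq'] at hdm ⊢
        rw [Nat.add_sub_cancel]
        have h1 : r * (q + 1) = q * r + r := by ring
        omega
      · intro j _ hj
        rw [if_neg, one_pow]
        intro h
        apply hj
        apply Fin.ext
        change (j : ℕ) = e % r - 1
        omega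
      · intro h
        exact absurd (Finset.mem_univ _) h
  refine ⟨∏ p ∈ m.primeFactors, p ^ (if m.factorization p % r = 0 then m.factorization p / r
          else m.factorization p / r - 1),
    fun j => ∏ p ∈ m.primeFactors, (if m.factorization p % r = (j : ℕ) + 1 then p else 1),
    ?_, ?_, ?_⟩
  · exact Nat.one_le_iff_ne_zero.2 (Finset.prod_ne_zero_iff.2 fun p hp =>
      pow_ne_zero _ (Nat.prime_of_mem_primeFactors hp).ne_zero)
  · intro j
    refine Nat.one_le_iff_ne_zero.2 (Finset.prod_ne_zero_iff.2 fun p hp => ?_)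
    split_ifs
    · exact (Nat.prime_of_mem_primeFactors hp).ne_zero
    · exact one_ne_zero
  · have h1 : m = ∏ p ∈ m.primeFactors, p ^ (m.factorization p) := by
      conv_lhs => rw [← Nat.prod_factorization_pow_eq_self hm0.ne']
      rfl
    conv_lhs => rw [h1]
    rw [Finset.prod_congr rfl hpt, Finset.prod_mul_distrib, Finset.prod_pow]
    congr 1
    rw [Finset.prod_comm]
    refine Finset.prod_congr rfl fun j _ => ?_
    rw [Finset.prod_pow]

theorem decomp_fun (r : ℕ) (hr : 2 ≤ r) :
    ∃ x : ℕ → ℕ, ∃ t : ℕ → Fin (r - 1) → ℕ, (∀ m, 1 ≤ x m) ∧ (∀ m j, 1 ≤ t m j) ∧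
      ∀ m, Powerful r m → m = (x m) ^ r * ∏ j, (t m j) ^ (r + 1 + (j : ℕ)) := by
  classical
  have h : ∀ m : ℕ, ∃ y : ℕ × (Fin (r - 1) → ℕ), 1 ≤ y.1 ∧ (∀ j, 1 ≤ y.2 j) ∧
      (Powerful r m → m = y.1 ^ r * ∏ j, (y.2 j) ^ (r + 1 + (j : ℕ))) := by
    intro m
    by_cases hm : Powerful r m
    · obtain ⟨x, t, hx, ht, he⟩ := decomp r hr m hm
      exact ⟨(x, t), hx, ht, fun _ => he⟩
    · exact ⟨(1, fun _ => 1), le_refl _, fun _ => le_refl _, fun h => absurd h hm⟩
  choose y hy using h
  exact ⟨fun m => (y m).1, fun m => (y m).2, fun m => (hy m).1, fun m j => (hy m).2.1 j,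
    fun m hm => (hy m).2.2 hm⟩

end Pool.Agent.H6.PW
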