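import Mathlib

/-!
Module `Smooth` (80 lines). The number of `m ≤ X` all of whose prime factors divide `n` is
`O(X^ε n^ε)`.

PROOF (Rankin). For `m ≤ X` we have `1 ≤ (X/m)^ε`, so the number is at most
`X^ε * ∑_{m, primes of m divide n} m^(-ε) = X^ε * ∏_{p | n} (1 - p^(-ε))⁻¹`
(`EulerProduct.summable_and_hasSum_factoredNumbers_prod_filter_prime_geometric` with
`s = n.primeFactors` and the completely multiplicative function `m ↦ m^(-ε)`; only the inequality
for finite sums is needed: `Summable.sum_le_tsum`). A factor with `p^ε ≥ 2` is at most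
`2 ≤ p^ε`; the primes with `p^ε < 2` are fewer than `2^(1/ε)` and contribute at most the constant
`C = ∏_{p ≤ 2^(1/ε)} (1 - p^(-ε))⁻¹` (all factors are `≥ 1`). Finally
`∏_{p | n} p^ε ≤ n^ε` (`Nat.prod_primeFactors_dvd`).
-/

set_option autoImplicit false

namespace Pool.Agent.H6.PW

private noncomputable def smoothF (ε : ℝ) : ℕ →* ℝ where
  toFun m := (m : ℝ) ^ (-ε)
  map_one' := by simp
  map_mul' a b := by
    push_cast
    exact Real.mul_rpow (Nat.cast_nonneg a) (Nat.cast_nonneg b)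

private theorem smoothF_apply (ε : ℝ) (m : ℕ) : smoothF ε m = (m : ℝ) ^ (-ε) := rfl

private theorem smoothF_lt (ε : ℝ) (hε : 0 < ε) {p : ℕ} (hp : p.Prime) :
    (p : ℝ) ^ (-ε) < 1 := by
  have h1 : (1 : ℝ) < p := by exact_mod_cast hp.one_lt
  exact Real.rpow_lt_one_of_one_lt_of_neg h1 (by linarith)

private theorem smooth_g (ε : ℝ) (hε : 0 < ε) {p : ℕ} (hp : p.Prime) :
    1 ≤ (1 - (p : ℝ) ^ (-ε))⁻¹ := by
  have h1 := smoothF_lt ε hε hp
  have h2 : (0 : ℝ) ≤ (p : ℝ) ^ (-ε) := Real.rpow_nonneg (Nat.cast_nonneg p) _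
  rw [one_le_inv₀ (by linarith)]
  linarith

private theorem smooth_prod (ε : ℝ) (hε : 0 < ε) :
    ∃ C : ℝ, 1 ≤ C ∧ ∀ n : ℕ, 1 ≤ n →
      ∏ p ∈ n.primeFactors, (1 - (p : ℝ) ^ (-ε))⁻¹ ≤ C * (n : ℝ) ^ ε := by
  classical
  set K : ℕ := ⌈(2 : ℝ) ^ (1 / ε)⌉₊ with hK
  refine ⟨∏ p ∈ (Finset.range K).filter Nat.Prime, (1 - (p : ℝ) ^ (-ε))⁻¹, ?_, ?_⟩
  · have : ∏ p ∈ (Finset.range K).filter Nat.Prime, (1 : ℝ) ≤
        ∏ p ∈ (Finset.range K).filter Nat.Prime, (1 - (p : ℝ) ^ (-ε))⁻¹ :=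
      Finset.prod_le_prod (fun _ _ => zero_le_one)
        (fun p hp => smooth_g ε hε (Finset.mem_filter.1 hp).2)
    simpa using this
  · intro n hn
    have h1 : ∏ p ∈ n.primeFactors, (1 - (p : ℝ) ^ (-ε))⁻¹ ≤
        ∏ p ∈ n.primeFactors, ((if p < K then (1 - (p : ℝ) ^ (-ε))⁻¹ else 1) * (p : ℝ) ^ ε) := by
      apply Finset.prod_le_prod
      · intro p hp
        exact le_trans zero_le_one (smooth_g ε hε (Nat.prime_of_mem_primeFactors hp))
      · intro p hp
        have hpp := Nat.prime_of_mem_primeFactors hp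
        have hg := smooth_g ε hε hpp
        have hp1 : (1 : ℝ) ≤ p := by exact_mod_cast hpp.one_lt.le
        have hpe : (1 : ℝ) ≤ (p : ℝ) ^ ε := Real.one_le_rpow hp1 hε.le
        split_ifs with hlt
        · exact le_mul_of_one_le_right (le_trans zero_le_one hg) hpe
        · rw [one_mul]
          have h2 : (2 : ℝ) ^ (1 / ε) ≤ p := by
            refine le_trans (Nat.le_ceil _) ?_
            exact_mod_cast not_lt.1 hlt
          have h3 : (2 : ℝ) ≤ (p : ℝ) ^ ε := by
            have h4 : ((2 : ℝ) ^ (1 / ε)) ^ ε ≤ (p : ℝ) ^ ε :=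
              Real.rpow_le_rpow (Real.rpow_nonneg (by norm_num) _) h2 hε.le
            rwa [← Real.rpow_mul (by norm_num), one_div, inv_mul_cancel₀ hε.ne', Real.rpow_one]
              at h4
          have h5 : (p : ℝ) ^ (-ε) ≤ 1 / 2 := by
            rw [Real.rpow_neg (Nat.cast_nonneg p), ← one_div]
            exact one_div_le_one_div_of_le (by norm_num) h3
          refine le_trans ?_ h3
          rw [inv_le_comm₀ (by linarith) (by norm_num)]
          linarith
    refine le_trans h1 ?_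
    rw [Finset.prod_mul_distrib]
    have h6 : ∏ p ∈ n.primeFactors, (if p < K then (1 - (p : ℝ) ^ (-ε))⁻¹ else 1) ≤
        ∏ p ∈ (Finset.range K).filter Nat.Prime, (1 - (p : ℝ) ^ (-ε))⁻¹ := by
      rw [← Finset.prod_filter]
      have hsub : n.primeFactors.filter (fun p => p < K) ⊆
          (Finset.range K).filter Nat.Prime := by
        intro p hp
        rw [Finset.mem_filter] at hp ⊢
        exact ⟨Finset.mem_range.2 hp.2, Nat.prime_of_mem_primeFactors hp.1⟩
      rw [← Finset.prod_sdiff hsub]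
      apply le_mul_of_one_le_left
      · exact Finset.prod_nonneg fun p hp => le_trans zero_le_one
          (smooth_g ε hε (Nat.prime_of_mem_primeFactors (Finset.mem_filter.1 hp).1))
      · have : ∏ p ∈ (Finset.range K).filter Nat.Prime \ n.primeFactors.filter (fun p => p < K),
            (1 : ℝ) ≤ ∏ p ∈ (Finset.range K).filter Nat.Prime \
              n.primeFactors.filter (fun p => p < K), (1 - (p : ℝ) ^ (-ε))⁻¹ :=
          Finset.prod_le_prod (fun _ _ => zero_le_one)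
            (fun p hp => smooth_g ε hε (Finset.mem_filter.1 (Finset.mem_sdiff.1 hp).1).2)
        simpa using this
    have h7 : ∏ p ∈ n.primeFactors, (p : ℝ) ^ ε ≤ (n : ℝ) ^ ε := by
      rw [Real.finsetProd_rpow _ _ (fun p _ => Nat.cast_nonneg p)]
      apply Real.rpow_le_rpow
      · exact Finset.prod_nonneg fun p _ => Nat.cast_nonneg p
      · have : ∏ p ∈ n.primeFactors, p ≤ n :=
          Nat.le_of_dvd (by omega) (Nat.prod_primeFactors_dvd n)
        rw [← Nat.cast_prod]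
        exact Nat.cast_le.2 this
      · exact hε.le
    apply mul_le_mul h6 h7
    · exact Finset.prod_nonneg fun p _ => Real.rpow_nonneg (Nat.cast_nonneg p) _
    · exact Finset.prod_nonneg fun p hp => le_trans zero_le_one
          (smooth_g ε hε (Finset.mem_filter.1 hp).2)

theorem smooth_bound (ε : ℝ) (hε : 0 < ε) :
    ∃ C : ℝ, 1 ≤ C ∧ ∀ n X : ℕ, 1 ≤ n → 1 ≤ X →
      (((Finset.Icc 1 X).filter (fun m => m.primeFactors ⊆ n.primeFactors)).card : ℝ) ≤
        C * (X : ℝ) ^ ε * (n : ℝ) ^ ε := by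
  classical
  obtain ⟨C, hC1, hC⟩ := smooth_prod ε hε
  refine ⟨C, hC1, ?_⟩
  intro n X hn hX
  set T := (Finset.Icc 1 X).filter (fun m => m.primeFactors ⊆ n.primeFactors) with hT
  have hXp : (0 : ℝ) < X := by exact_mod_cast hX
  have h1 : (T.card : ℝ) ≤ ∑ m ∈ T, (X : ℝ) ^ ε * (m : ℝ) ^ (-ε) := by
    rw [← nsmul_one, ← Finset.sum_const]
    apply Finset.sum_le_sum
    intro m hm
    rw [hT, Finset.mem_filter, Finset.mem_Icc] at hm
    have hm0 : (0 : ℝ) < m := by exact_mod_cast hm.1.1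
    have hmX : (m : ℝ) ≤ X := by exact_mod_cast hm.1.2
    rw [Real.rpow_neg hm0.le, ← div_eq_mul_inv, le_div_iff₀ (Real.rpow_pos_of_pos hm0 _), one_mul]
    exact Real.rpow_le_rpow hm0.le hmX hε.le
  rw [← Finset.mul_sum] at h1
  have h2 := (EulerProduct.summable_and_hasSum_factoredNumbers_prod_filter_prime_geometric
    (f := smoothF ε) (fun {p} hp => by
      rw [smoothF_apply, Real.norm_of_nonneg (Real.rpow_nonneg (Nat.cast_nonneg p) _)]
      exact smoothF_lt ε hε hp) n.primeFactors).2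
  have h3 : ∑ m ∈ T, (m : ℝ) ^ (-ε) ≤ ∏ p ∈ n.primeFactors with p.Prime, (1 - smoothF ε p)⁻¹ := by
    have hmem : ∀ m ∈ T, m ∈ Nat.factoredNumbers n.primeFactors := by
      intro m hm
      rw [hT, Finset.mem_filter, Finset.mem_Icc] at hm
      rw [Nat.mem_factoredNumbers]
      refine ⟨by omega, ?_⟩
      intro p hp
      exact hm.2 (Nat.mem_primeFactors_iff_mem_primeFactorsList.2 hp)
    have h4 : ∑ m ∈ T.subtype (fun m => m ∈ Nat.factoredNumbers n.primeFactors),
        smoothF ε m = ∑ m ∈ T, (m : ℝ) ^ (-ε) :=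
      Finset.sum_subtype_of_mem (p := fun m => m ∈ Nat.factoredNumbers n.primeFactors)
        (fun m : ℕ => (m : ℝ) ^ (-ε)) hmem
    rw [← h4]
    exact sum_le_hasSum _ (fun m _ => by
      rw [smoothF_apply]
      exact Real.rpow_nonneg (Nat.cast_nonneg _) _) h2
  have h5 : ∏ p ∈ n.primeFactors with p.Prime, (1 - smoothF ε p)⁻¹ =
      ∏ p ∈ n.primeFactors, (1 - (p : ℝ) ^ (-ε))⁻¹ := by
    rw [Finset.filter_true_of_mem (fun p hp => Nat.prime_of_mem_primeFactors hp)]
    rfl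
  have h6 := hC n hn
  have h7 : (0 : ℝ) ≤ (X : ℝ) ^ ε := Real.rpow_nonneg hXp.le _
  calc (T.card : ℝ) ≤ (X : ℝ) ^ ε * ∑ m ∈ T, (m : ℝ) ^ (-ε) := h1
    _ ≤ (X : ℝ) ^ ε * (C * (n : ℝ) ^ ε) := by
        apply mul_le_mul_of_nonneg_left _ h7
        rw [h5] at h3
        exact le_trans h3 h6
    _ = C * (X : ℝ) ^ ε * (n : ℝ) ^ ε := by ring

end Pool.Agent.H6.PW
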