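import Mathlib
import Pool.Agent.H6.PW.CopCount
import Pool.Agent.H6.PW.Smooth

/-!
Module `PairCount` (150 lines; independent of the proofs of `CopCount`, `Smooth`). For `k ≥ 4` the
number of `(x, y)` in `[1,X]^2` with `A x^k + s B y^k = n` is `O(X^ε n^ε)`, uniformly in `A`, `B`.

PROOF. For a positive integer `x` let `x0` be the part of `x` composed of the primes dividing `n`
(`x0 = ∏ p ∈ x.primeFactors ∩ n.primeFactors, p ^ x.factorization p`) and `x = x0 x'`; then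
`x'` is prime to `n`, `x0.primeFactors ⊆ n.primeFactors`, `x0 ≤ x ≤ X`, `x' ≤ X`.
(It is enough to prove: for `x, n ≥ 1` there are `x0, x'` with `x = x0 * x'`,
`x0.primeFactors ⊆ n.primeFactors`, `Nat.Coprime x' n`; strong induction on `x` or
`Nat.prod_factorization_pow_eq_self`; then choose.)
Partition `T` according to `(x0, y0)`: by `smooth_bound` there are at most
`(C1 X^ε n^ε)^2` values. For given `(x0, y0)` put `A1 = A x0^k`, `B1 = B y0^k`, so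
`A1 x'^k + s B1 y'^k = n`. Let `G = gcd(A1, n)`. If there is a solution, `G ∣ s B1 y'^k` and `y'`
is prime to `G ∣ n`, so `G ∣ B1`. Put `A2 = A1/G`, `B2 = B1/G`, `n2 = n/G`; then
`A2 x'^k + s B2 y'^k = n2`, `gcd(A2, n2) = 1` (`Nat.coprime_div_gcd_div_gcd`), `x'`, `y'` prime to
`n2 ∣ n`, and `cop_count` bounds the number of `(x', y')` by `C2 X^ε n2^ε ≤ C2 X^ε n^ε`.
Use everything with `ε/3`.
-/

set_option autoImplicit false

namespace Pool.Agent.H6.PW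

private theorem pc_split (n : ℕ) (hn : 1 ≤ n) (x : ℕ) (hx : 1 ≤ x) :
    ∃ x0 x' : ℕ, x = x0 * x' ∧ x0.primeFactors ⊆ n.primeFactors ∧ Nat.Coprime x' n := by
  induction x using Nat.strong_induction_on with
  | _ x ih =>
    by_cases hc : Nat.Coprime x n
    · exact ⟨1, x, by simp, by simp, hc⟩
    · obtain ⟨p, hp, hpx, hpn⟩ := Nat.Prime.not_coprime_iff_dvd.1 hc
      obtain ⟨y, rfl⟩ := hpx
      have hy : 1 ≤ y := Nat.pos_of_ne_zero (by rintro rfl; simp at hx)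
      have hlt : y < p * y := by
        have := hp.two_le
        nlinarith
      obtain ⟨y0, y', h1, h2, h3⟩ := ih y hlt hy
      refine ⟨p * y0, y', by rw [h1, mul_assoc], ?_, h3⟩
      have hy0 : y0 ≠ 0 := by rintro rfl; omega
      rw [Nat.primeFactors_mul hp.ne_zero hy0, hp.primeFactors]
      refine Finset.union_subset ?_ h2
      rw [Finset.singleton_subset_iff, Nat.mem_primeFactors]
      exact ⟨hp, hpn, by omega⟩

private theorem pc_fibre (k : ℕ) (δ C : ℝ) (hC : 1 ≤ C) (hδ : 0 < δ)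
    (hcop : ∀ X A B n : ℕ, 1 ≤ X → 1 ≤ A → 1 ≤ B → 1 ≤ n → Nat.Coprime A n →
      ∀ s : ℤ, (s = 1 ∨ s = -1) → ∀ T : Finset (ℕ × ℕ),
        (∀ q ∈ T, 1 ≤ q.1 ∧ q.1 ≤ X ∧ 1 ≤ q.2 ∧ q.2 ≤ X ∧ Nat.Coprime q.1 n ∧
          Nat.Coprime q.2 n ∧ (A : ℤ) * (q.1 : ℤ) ^ k + s * B * (q.2 : ℤ) ^ k = n) →
        (T.card : ℝ) ≤ C * (X : ℝ) ^ δ * (n : ℝ) ^ δ)
    (X A B n : ℕ) (hX : 1 ≤ X) (hA : 1 ≤ A) (hB : 1 ≤ B) (hn : 1 ≤ n) (s : ℤ)
    (hs : s = 1 ∨ s = -1) (T : Finset (ℕ × ℕ))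
    (hT : ∀ q ∈ T, 1 ≤ q.1 ∧ q.1 ≤ X ∧ 1 ≤ q.2 ∧ q.2 ≤ X ∧ Nat.Coprime q.1 n ∧
          Nat.Coprime q.2 n ∧ (A : ℤ) * (q.1 : ℤ) ^ k + s * B * (q.2 : ℤ) ^ k = n) :
    (T.card : ℝ) ≤ C * (X : ℝ) ^ δ * (n : ℝ) ^ δ := by
  rcases T.eq_empty_or_nonempty with rfl | ⟨q0, hq0⟩
  · simp only [Finset.card_empty, Nat.cast_zero]
    positivity
  set G := Nat.gcd A n with hG
  have hG0 : 0 < G := Nat.gcd_pos_of_pos_left n (by omega)
  have hGA : G ∣ A := Nat.gcd_dvd_left A n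
  have hGn : G ∣ n := Nat.gcd_dvd_right A n
  have hGB : G ∣ B := by
    obtain ⟨-, -, -, -, -, h6, h7⟩ := hT q0 hq0
    have h8 : (G : ℤ) ∣ s * B * (q0.2 : ℤ) ^ k := by
      have e : s * B * (q0.2 : ℤ) ^ k = n - (A : ℤ) * (q0.1 : ℤ) ^ k := by linarith
      rw [e]
      exact dvd_sub (by exact_mod_cast hGn) (Dvd.dvd.mul_right (by exact_mod_cast hGA) _)
    have h9 : (G : ℤ) ∣ (B : ℤ) * (q0.2 : ℤ) ^ k := by
      rcases hs with rfl | rfl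
      · simpa using h8
      · rw [neg_one_mul, neg_mul, dvd_neg] at h8
        exact h8
    have h10 : G ∣ B * q0.2 ^ k := by exact_mod_cast h9
    have h11 : Nat.Coprime G (q0.2 ^ k) :=
      ((Nat.Coprime.coprime_dvd_right hGn h6).symm).pow_right k
    exact h11.dvd_of_dvd_mul_right h10
  obtain ⟨A', hA'⟩ := hGA
  obtain ⟨B', hB'⟩ := hGB
  obtain ⟨n', hn'⟩ := hGn
  have hAn : Nat.Coprime A' n' := by
    have h1 := Nat.coprime_div_gcd_div_gcd (m := A) (n := n) hG0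
    rw [← hG] at h1
    have e1 : A / G = A' := by
      conv_lhs => rw [hA']
      exact Nat.mul_div_cancel_left A' hG0
    have e2 : n / G = n' := by
      conv_lhs => rw [hn']
      exact Nat.mul_div_cancel_left n' hG0
    rwa [e1, e2] at h1
  have hA'1 : 1 ≤ A' := Nat.pos_of_ne_zero (by rintro rfl; omega)
  have hB'1 : 1 ≤ B' := Nat.pos_of_ne_zero (by rintro rfl; omega)
  have hn'1 : 1 ≤ n' := Nat.pos_of_ne_zero (by rintro rfl; omega)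
  have hn'dvd : n' ∣ n := ⟨G, by rw [hn', mul_comm]⟩
  have h := hcop X A' B' n' hX hA'1 hB'1 hn'1 hAn s hs T fun q hq => by
    obtain ⟨c1, c2, c3, c4, c5, c6, c7⟩ := hT q hq
    refine ⟨c1, c2, c3, c4, c5.coprime_dvd_right hn'dvd, c6.coprime_dvd_right hn'dvd, ?_⟩
    have hG' : (G : ℤ) ≠ 0 := by exact_mod_cast hG0.ne'
    apply mul_left_cancel₀ hG'
    have eA : (A : ℤ) = G * A' := by exact_mod_cast hA'
    have eB : (B : ℤ) = G * B' := by exact_mod_cast hB'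
    have en : (n : ℤ) = G * n' := by exact_mod_cast hn'
    rw [eA, eB, en] at c7
    linear_combination c7
  refine h.trans ?_
  have h1 : (n' : ℝ) ≤ n := by exact_mod_cast Nat.le_of_dvd (by omega) hn'dvd
  have h2 : (n' : ℝ) ^ δ ≤ (n : ℝ) ^ δ := Real.rpow_le_rpow (by positivity) h1 hδ.le
  gcongr

theorem pair_count (k : ℕ) (hk : 4 ≤ k) (ε : ℝ) (hε : 0 < ε) :
    ∃ C : ℝ, 1 ≤ C ∧ ∀ X A B n : ℕ, 1 ≤ X → 1 ≤ A → 1 ≤ B → 1 ≤ n →
      ∀ s : ℤ, (s = 1 ∨ s = -1) → ∀ T : Finset (ℕ × ℕ),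
        (∀ q ∈ T, 1 ≤ q.1 ∧ q.1 ≤ X ∧ 1 ≤ q.2 ∧ q.2 ≤ X ∧
          (A : ℤ) * (q.1 : ℤ) ^ k + s * B * (q.2 : ℤ) ^ k = n) →
        (T.card : ℝ) ≤ C * (X : ℝ) ^ ε * (n : ℝ) ^ ε := by
  classical
  have hδ : 0 < ε / 3 := by positivity
  obtain ⟨C1, hC1, h1⟩ := smooth_bound (ε / 3) hδ
  obtain ⟨C2, hC2, h2⟩ := cop_count k hk (ε / 3) hδ
  refine ⟨C1 ^ 2 * C2, by nlinarith [one_le_pow₀ hC1 (n := 2)], ?_⟩
  intro X A B n hX hA hB hn s hs T hT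
  have hsp : ∀ x : ℕ, ∃ x0 x' : ℕ, 1 ≤ x → x = x0 * x' ∧ x0.primeFactors ⊆ n.primeFactors ∧
      Nat.Coprime x' n := by
    intro x
    by_cases hx : 1 ≤ x
    · obtain ⟨x0, x', h⟩ := pc_split n hn x hx
      exact ⟨x0, x', fun _ => h⟩
    · exact ⟨0, 0, fun h => absurd h hx⟩
  choose f0 f' hf using hsp
  set Sm := (Finset.Icc 1 X).filter (fun m => m.primeFactors ⊆ n.primeFactors) with hSm
  have hmaps : ∀ x, 1 ≤ x → x ≤ X → f0 x ∈ Sm ∧ 1 ≤ f' x ∧ f' x ≤ X := by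
    intro x hx hxX
    obtain ⟨e1, e2, e3⟩ := hf x hx
    have h0 : f0 x ≠ 0 := by intro h; rw [h, zero_mul] at e1; omega
    have h0' : f' x ≠ 0 := by intro h; rw [h, mul_zero] at e1; omega
    have l1 : f0 x ≤ x := by
      conv_rhs => rw [e1]
      exact Nat.le_mul_of_pos_right _ (Nat.pos_of_ne_zero h0')
    have l2 : f' x ≤ x := by
      conv_rhs => rw [e1]
      exact Nat.le_mul_of_pos_left _ (Nat.pos_of_ne_zero h0)
    refine ⟨?_, Nat.pos_of_ne_zero h0', l2.trans hxX⟩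
    rw [hSm, Finset.mem_filter, Finset.mem_Icc]
    exact ⟨⟨Nat.pos_of_ne_zero h0, l1.trans hxX⟩, e2⟩
  let key : ℕ × ℕ → ℕ × ℕ := fun q => (f0 q.1, f0 q.2)
  have hkey : ∀ q ∈ T, key q ∈ Sm ×ˢ Sm := by
    intro q hq
    obtain ⟨c1, c2, c3, c4, -⟩ := hT q hq
    exact Finset.mem_product.2 ⟨(hmaps q.1 c1 c2).1, (hmaps q.2 c3 c4).1⟩
  have hfib : ∀ a ∈ Sm ×ˢ Sm, (((T.filter fun q => key q = a).card : ℕ) : ℝ) ≤
      C2 * (X : ℝ) ^ (ε / 3) * (n : ℝ) ^ (ε / 3) := by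
    intro a ha
    obtain ⟨ha1, ha2⟩ := Finset.mem_product.1 ha
    have ha1' : 1 ≤ a.1 := (Finset.mem_Icc.1 (Finset.mem_filter.1 ha1).1).1
    have ha2' : 1 ≤ a.2 := (Finset.mem_Icc.1 (Finset.mem_filter.1 ha2).1).1
    set F := T.filter fun q => key q = a with hF
    have hFq : ∀ q ∈ F, q.1 = a.1 * f' q.1 ∧ q.2 = a.2 * f' q.2 := by
      intro q hq
      obtain ⟨hqT, hqa⟩ := Finset.mem_filter.1 hq
      obtain ⟨c1, -, c3, -⟩ := hT q hqT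
      constructor
      · rw [← hqa]; exact (hf q.1 c1).1
      · rw [← hqa]; exact (hf q.2 c3).1
    have hinj : Set.InjOn (fun q : ℕ × ℕ => (f' q.1, f' q.2)) F := by
      intro q hq q' hq' he
      have e1 := congrArg Prod.fst he
      have e2 := congrArg Prod.snd he
      simp only at e1 e2
      refine Prod.ext ?_ ?_
      · rw [(hFq q hq).1, (hFq q' hq').1, e1]
      · rw [(hFq q hq).2, (hFq q' hq').2, e2]
    rw [← Finset.card_image_of_injOn hinj]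
    refine pc_fibre k (ε / 3) C2 hC2 hδ h2 X (A * a.1 ^ k) (B * a.2 ^ k) n hX
      (Nat.mul_pos hA (by positivity)) (Nat.mul_pos hB (by positivity)) hn s hs _ ?_
    intro r hr
    obtain ⟨q, hq, rfl⟩ := Finset.mem_image.1 hr
    obtain ⟨hqT, -⟩ := Finset.mem_filter.1 hq
    obtain ⟨c1, c2, c3, c4, c5⟩ := hT q hqT
    obtain ⟨g1, g2⟩ := hFq q hq
    obtain ⟨-, m1, m2⟩ := hmaps q.1 c1 c2
    obtain ⟨-, m3, m4⟩ := hmaps q.2 c3 c4
    refine ⟨m1, m2, m3, m4, (hf q.1 c1).2.2, (hf q.2 c3).2.2, ?_⟩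
    have g1' : (q.1 : ℤ) = a.1 * f' q.1 := by exact_mod_cast g1
    have g2' : (q.2 : ℤ) = a.2 * f' q.2 := by exact_mod_cast g2
    rw [g1', g2'] at c5
    push_cast
    linear_combination c5
  rw [Finset.card_eq_sum_card_fiberwise hkey, Nat.cast_sum]
  have hX0 : (0 : ℝ) < X := by exact_mod_cast hX
  have hn0 : (0 : ℝ) < n := by exact_mod_cast hn
  have hS := h1 n X hn hX
  rw [← hSm] at hS
  calc ∑ a ∈ Sm ×ˢ Sm, (((T.filter fun q => key q = a).card : ℕ) : ℝ)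
      ≤ ∑ a ∈ Sm ×ˢ Sm, C2 * (X : ℝ) ^ (ε / 3) * (n : ℝ) ^ (ε / 3) := Finset.sum_le_sum hfib
    _ = (Sm.card : ℝ) ^ 2 * (C2 * (X : ℝ) ^ (ε / 3) * (n : ℝ) ^ (ε / 3)) := by
        rw [Finset.sum_const, Finset.card_product, nsmul_eq_mul, Nat.cast_mul, sq]
    _ ≤ (C1 * (X : ℝ) ^ (ε / 3) * (n : ℝ) ^ (ε / 3)) ^ 2 *
          (C2 * (X : ℝ) ^ (ε / 3) * (n : ℝ) ^ (ε / 3)) :=
        mul_le_mul_of_nonneg_right (pow_le_pow_left₀ (Nat.cast_nonneg _) hS 2) (by positivity)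
    _ = C1 ^ 2 * C2 * (X : ℝ) ^ ε * (n : ℝ) ^ ε := by
        have e1 : (X : ℝ) ^ ε = (X : ℝ) ^ (ε / 3) * (X : ℝ) ^ (ε / 3) * (X : ℝ) ^ (ε / 3) := by
          rw [← Real.rpow_add hX0, ← Real.rpow_add hX0]
          congr 1
          ring
        have e2 : (n : ℝ) ^ ε = (n : ℝ) ^ (ε / 3) * (n : ℝ) ^ (ε / 3) * (n : ℝ) ^ (ε / 3) := by
          rw [← Real.rpow_add hn0, ← Real.rpow_add hn0]
          congr 1
          ring
        rw [e1, e2]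
        ring

end Pool.Agent.H6.PW
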