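import Mathlib
import Pool.Agent.H41.Eis.Divisor

/-!
Module `ProdCount` (50 lines). The number of tuples of positive integers with product at most `Z`
is `O(Z^(1+ε))`.

PROOF. Let `h = card ι`. Send `f` to `v = ∏ f i`, an integer in `[1, Z]`; for given `v` every
`f i` is a divisor of `v`, so there are at most `d(v)^h ≤ (C v^(ε/(h+1)))^h ≤ C^h Z^ε` such `f`
(`Fintype.piFinset (fun _ => v.divisors)`, `Fintype.card_piFinset_const`), and there are at most
`Z` values of `v` (`Finset.card_le_mul_card_image` or `Finset.card_eq_sum_card_fiberwise`).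
-/

set_option autoImplicit false

namespace Pool.Agent.H6.PW

theorem prod_count (ι : Type) [Fintype ι] [DecidableEq ι] (ε : ℝ) (hε : 0 < ε) :
    ∃ C : ℝ, 1 ≤ C ∧ ∀ Z : ℝ, 1 ≤ Z → ∀ T : Finset (ι → ℕ),
      (∀ f ∈ T, (∀ i, 1 ≤ f i) ∧ ((∏ i, f i : ℕ) : ℝ) ≤ Z) → (T.card : ℝ) ≤ C * Z ^ (1 + ε) := by
  obtain ⟨C, hC1, hC⟩ := Pool.Agent.H41.Eis.divisor_bound (ε / (Fintype.card ι + 1)) (by positivity)
  refine ⟨C ^ Fintype.card ι, one_le_pow₀ hC1, ?_⟩
  intro Z hZ T hT
  have hC0 : 0 ≤ C := by linarith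
  set N := ⌊Z⌋₊ with hN
  have hmaps : ∀ f ∈ T, (∏ i, f i) ∈ Finset.Icc 1 N := by
    intro f hf
    obtain ⟨h1, h2⟩ := hT f hf
    rw [Finset.mem_Icc]
    refine ⟨?_, Nat.le_floor h2⟩
    exact Nat.one_le_iff_ne_zero.mpr (Finset.prod_ne_zero_iff.mpr (fun i _ => by
      have := h1 i
      omega))
  rw [Finset.card_eq_sum_card_fiberwise hmaps]
  push_cast
  have hfib : ∀ v ∈ Finset.Icc 1 N, (((T.filter (fun f => ∏ i, f i = v)).card : ℕ) : ℝ) ≤
      C ^ Fintype.card ι * Z ^ ε := by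
    intro v hv
    rw [Finset.mem_Icc] at hv
    have hvZ : (v : ℝ) ≤ Z := (Nat.le_floor_iff (by linarith)).mp hv.2
    have hsub : T.filter (fun f => ∏ i, f i = v) ⊆ Fintype.piFinset (fun _ : ι => v.divisors) := by
      intro f hf
      rw [Finset.mem_filter] at hf
      rw [Fintype.mem_piFinset]
      intro i
      rw [Nat.mem_divisors]
      refine ⟨?_, by omega⟩
      rw [← hf.2]
      exact Finset.dvd_prod_of_mem f (Finset.mem_univ i)
    have h1 : (T.filter (fun f => ∏ i, f i = v)).card ≤ v.divisors.card ^ Fintype.card ι := by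
      refine (Finset.card_le_card hsub).trans ?_
      rw [Fintype.card_piFinset, Finset.prod_const, Finset.card_univ]
    have h2 : (v.divisors.card : ℝ) ^ Fintype.card ι ≤
        (C * (v : ℝ) ^ (ε / (Fintype.card ι + 1))) ^ Fintype.card ι :=
      pow_le_pow_left₀ (by positivity) (hC v hv.1) _
    have hv1 : (1 : ℝ) ≤ v := by exact_mod_cast hv.1
    calc (((T.filter (fun f => ∏ i, f i = v)).card : ℕ) : ℝ)
        ≤ (v.divisors.card : ℝ) ^ Fintype.card ι := by exact_mod_cast h1
      _ ≤ (C * (v : ℝ) ^ (ε / (Fintype.card ι + 1))) ^ Fintype.card ι := h2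
      _ = C ^ Fintype.card ι * ((v : ℝ) ^ (ε / (Fintype.card ι + 1))) ^ Fintype.card ι := by
          rw [mul_pow]
      _ ≤ C ^ Fintype.card ι * Z ^ ε := by
          apply mul_le_mul_of_nonneg_left _ (by positivity)
          rw [← Real.rpow_natCast, ← Real.rpow_mul (by linarith)]
          calc (v : ℝ) ^ (ε / (Fintype.card ι + 1) * (Fintype.card ι : ℝ))
              ≤ (v : ℝ) ^ ε := by
                apply Real.rpow_le_rpow_of_exponent_le hv1
                rw [div_mul_eq_mul_div, div_le_iff₀ (by positivity)]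
                nlinarith
            _ ≤ Z ^ ε := Real.rpow_le_rpow (by linarith) hvZ hε.le
  refine (Finset.sum_le_sum hfib).trans ?_
  rw [Finset.sum_const, Nat.card_Icc, Nat.add_sub_cancel, nsmul_eq_mul]
  have hNZ : (N : ℝ) ≤ Z := Nat.floor_le (by linarith)
  calc (N : ℝ) * (C ^ Fintype.card ι * Z ^ ε) ≤ Z * (C ^ Fintype.card ι * Z ^ ε) :=
        mul_le_mul_of_nonneg_right hNZ (by positivity)
    _ = C ^ Fintype.card ι * Z ^ (1 + ε) := by
        rw [Real.rpow_add (by linarith), Real.rpow_one]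
        ring

end Pool.Agent.H6.PW
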