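import Mathlib
import Pool.Agent.H6.PW.TupDefs
import Pool.Agent.H6.PW.ProdCount

/-!
Module `Omit` (90 lines; independent of the proof of `ProdCount`). Tuples all of whose entries but
one have small weight.

PROOF (`omit_tup`). Send `m ∈ T` to `f : ι ⊕ ι × Fin (r-1) → ℕ`, `ι = Option (Fin (r-2))`,
`f (inl l) = if l = i then 1 else x (m l)`, `f (inr (l, j)) = if l = i then 1 else t (m l) j`.
Injective on `Tup r X`: for `l ≠ i` the value `f` determines `m l = x^r * ∏ t_j^(r+1+j)`, and then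
the relation `m none = ∑ m (some _)` determines `m i`. The product of all `f` is
`∏ l ∈ univ.erase i, (x (m l) * ∏ j, t (m l) j) ≤ Z`. Apply `prod_count` to the image.
`omit_tri`: the same with `Fin 3` and `m 0 + m 1 = m 2`.
-/

set_option autoImplicit false

namespace Pool.Agent.H6.PW

private theorem Omit_gen (ι : Type) [Fintype ι] [DecidableEq ι] (r : ℕ) (ε : ℝ) (hε : 0 < ε) :
    ∃ C : ℝ, 1 ≤ C ∧ ∀ (x : ℕ → ℕ) (t : ℕ → Fin (r - 1) → ℕ), IsDec r x t →
      ∀ (Z : ℝ), 1 ≤ Z → ∀ i : ι, ∀ T : Finset (ι → ℕ), (∀ m ∈ T, ∀ l, Powerful r (m l)) →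
        (∀ m ∈ T, ∀ m' ∈ T, (∀ l, l ≠ i → m l = m' l) → m = m') →
        (∀ m ∈ T, ((∏ l ∈ Finset.univ.erase i, (x (m l) * ∏ j, t (m l) j) : ℕ) : ℝ) ≤ Z) →
        (T.card : ℝ) ≤ C * Z ^ (1 + ε) := by
  obtain ⟨C, hC1, hC⟩ := prod_count (ι ⊕ ι × Fin (r - 1)) ε hε
  refine ⟨C, hC1, ?_⟩
  intro x t hdec Z hZ i T hP hT hprod
  obtain ⟨hx, ht, hd⟩ := hdec
  let Φ : (ι → ℕ) → (ι ⊕ ι × Fin (r - 1) → ℕ) := fun m =>
    Sum.elim (fun l => if l = i then 1 else x (m l))
      (fun p => if p.1 = i then 1 else t (m p.1) p.2)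
  have hinj : Set.InjOn Φ (T : Set (ι → ℕ)) := by
    intro m hm m' hm' h
    refine hT m hm m' hm' fun l hl => ?_
    have h1 : x (m l) = x (m' l) := by
      have := congrFun h (Sum.inl l)
      simpa [Φ, hl] using this
    have h2 : ∀ j, t (m l) j = t (m' l) j := by
      intro j
      have := congrFun h (Sum.inr (l, j))
      simpa [Φ, hl] using this
    rw [hd _ (hP m hm l), hd _ (hP m' hm' l), h1]
    congr 1
    exact Finset.prod_congr rfl fun j _ => by rw [h2]
  rw [← Finset.card_image_of_injOn hinj]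
  refine hC Z hZ _ ?_
  intro f hf
  obtain ⟨m, hm, rfl⟩ := Finset.mem_image.1 hf
  constructor
  · rintro (l | ⟨l, j⟩)
    · change 1 ≤ if l = i then 1 else x (m l)
      split_ifs
      · exact le_rfl
      · exact hx _
    · change 1 ≤ if l = i then 1 else t (m l) j
      split_ifs
      · exact le_rfl
      · exact ht _ _
  · refine le_trans (le_of_eq ?_) (hprod m hm)
    congr 1
    rw [Fintype.prod_sum_type, Fintype.prod_prod_type, ← Finset.prod_mul_distrib,
      ← Finset.prod_erase (a := i) Finset.univ]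
    · refine Finset.prod_congr rfl fun l hl => ?_
      have hli : l ≠ i := Finset.ne_of_mem_erase hl
      simp [Φ, hli]
    · simp [Φ]

theorem omit_tup (r : ℕ) (hr : 4 ≤ r) (ε : ℝ) (hε : 0 < ε) :
    ∃ C : ℝ, 1 ≤ C ∧ ∀ (x : ℕ → ℕ) (t : ℕ → Fin (r - 1) → ℕ), IsDec r x t →
      ∀ (X : ℕ) (Z : ℝ), 1 ≤ X → 1 ≤ Z → ∀ i : Option (Fin (r - 2)),
      ∀ T : Finset (Option (Fin (r - 2)) → ℕ), T ⊆ Tup r X →
        (∀ m ∈ T, ((∏ l ∈ Finset.univ.erase i, (x (m l) * ∏ j, t (m l) j) : ℕ) : ℝ) ≤ Z) →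
        (T.card : ℝ) ≤ C * Z ^ (1 + ε) := by
  have _ := hr
  obtain ⟨C, hC1, hC⟩ := Omit_gen (Option (Fin (r - 2))) r ε hε
  refine ⟨C, hC1, ?_⟩
  intro x t hdec X Z _ hZ i T hT hprod
  refine hC x t hdec Z hZ i T (fun m hm => (mem_Tup.1 (hT hm)).2.1) ?_ hprod
  intro m hm m' hm' h
  have e1 := (mem_Tup.1 (hT hm)).2.2
  have e2 := (mem_Tup.1 (hT hm')).2.2
  funext l
  by_cases hl : l = i
  · subst hl
    rcases l with _ | k
    · rw [e1, e2]
      exact Finset.sum_congr rfl fun j _ => h (some j) (by simp)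
    · have h0 : m none = m' none := h none (by simp)
      rw [e1, e2, ← Finset.add_sum_erase _ _ (Finset.mem_univ k),
        ← Finset.add_sum_erase _ _ (Finset.mem_univ k)] at h0
      have h1 : ∑ j ∈ Finset.univ.erase k, m (some j) =
          ∑ j ∈ Finset.univ.erase k, m' (some j) := by
        refine Finset.sum_congr rfl fun j hj => h (some j) ?_
        intro hjk
        exact Finset.ne_of_mem_erase hj (Option.some_injective _ hjk)
      rw [h1] at h0
      exact Nat.add_right_cancel h0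
  · exact h l hl

theorem omit_tri (ε : ℝ) (hε : 0 < ε) :
    ∃ C : ℝ, 1 ≤ C ∧ ∀ (x : ℕ → ℕ) (t : ℕ → Fin 3 → ℕ), IsDec 4 x t →
      ∀ (X : ℕ) (Z : ℝ), 1 ≤ X → 1 ≤ Z → ∀ i : Fin 3,
      ∀ T : Finset (Fin 3 → ℕ), T ⊆ Tri X →
        (∀ m ∈ T, ((∏ l ∈ Finset.univ.erase i, (x (m l) * ∏ j, t (m l) j) : ℕ) : ℝ) ≤ Z) →
        (T.card : ℝ) ≤ C * Z ^ (1 + ε) := by
  obtain ⟨C, hC1, hC⟩ := Omit_gen (Fin 3) 4 ε hε
  refine ⟨C, hC1, ?_⟩
  intro x t hdec X Z _ hZ i T hT hprod
  refine hC x t hdec Z hZ i T (fun m hm => (mem_Tri.1 (hT hm)).2.1) ?_ hprod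
  intro m hm m' hm' h
  have e1 := (mem_Tri.1 (hT hm)).2.2.1
  have e2 := (mem_Tri.1 (hT hm')).2.2.1
  have key : ∀ l : Fin 3, m l = m' l := by
    fin_cases i
    · have h1 := h 1 (by decide)
      have h2 := h 2 (by decide)
      intro l
      fin_cases l
      · change m 0 = m' 0
        omega
      · exact h1
      · exact h2
    · have h1 := h 0 (by decide)
      have h2 := h 2 (by decide)
      intro l
      fin_cases l
      · exact h1
      · change m 1 = m' 1
        omega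
      · exact h2
    · have h1 := h 0 (by decide)
      have h2 := h 1 (by decide)
      intro l
      fin_cases l
      · exact h1
      · exact h2
      · change m 2 = m' 2
        omega
  exact funext key

end Pool.Agent.H6.PW
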