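import Mathlib

/-!
Module `LPr` (80 lines). The linear programme for general `r ≥ 4`.

PROOF. `θ = 2(r-2)/(2r+1)`. Let `a` be an index with `S a` minimal and `b ≠ a` an index with
`S b` minimal among the others (`card ι = r - 1 ≥ 3`, `Finset.exists_min_image`).
So `S a ≤ S b ≤ S l` for all `l ≠ a`. From `r P l + (r+1) S l ≤ L`: `P l + S l ≤ (L - S l)/r`.
(i) If `(2r+1) S b ≥ L`: for all `l ≠ a`, `P l + S l ≤ (L - S l)/r ≤ (L - S b)/r ≤ 2L/(2r+1)`, so the
sum over the `r - 2` indices `l ≠ a` is at most `θ L`: first alternative with `i = a`.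
(ii) Otherwise `(2r+1) S b < L`, and
`∑ (P + S) - P a - P b = S a + S b + ∑_{l ≠ a,b} (P l + S l) ≤ 2 S b + (r-3)(L - S b)/r`,
which is nondecreasing in `S b` (`2 ≥ (r-3)/r`), so at most its value at `S b = L/(2r+1)`, namely
`2L/(2r+1) + (r-3) 2L/(2r+1) = θ L`: second alternative with `i = a`, `j = b`.
-/

set_option autoImplicit false

namespace Pool.Agent.H6.PW

theorem lp_r (ι : Type) [Fintype ι] [DecidableEq ι] (r : ℕ) (hr : 4 ≤ r)
    (hι : Fintype.card ι = r - 1) (L : ℝ) (hL : 0 ≤ L) (P S : ι → ℝ) (hP : ∀ i, 0 ≤ P i)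
    (hS : ∀ i, 0 ≤ S i) (h : ∀ i, (r : ℝ) * P i + ((r : ℝ) + 1) * S i ≤ L) :
    (∃ i, ∑ l, (P l + S l) - (P i + S i) ≤ 2 * ((r : ℝ) - 2) / (2 * (r : ℝ) + 1) * L) ∨
    (∃ i j, i ≠ j ∧ ∑ l, (P l + S l) - P i - P j ≤
      2 * ((r : ℝ) - 2) / (2 * (r : ℝ) + 1) * L) := by
  have hr4 : (4 : ℝ) ≤ r := by exact_mod_cast hr
  have hr0 : (0 : ℝ) < r := by linarith
  have h2r : (0 : ℝ) < 2 * (r : ℝ) + 1 := by linarith
  have hne : (Finset.univ : Finset ι).Nonempty := by
    rw [← Finset.card_pos, Finset.card_univ, hι]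
    omega
  obtain ⟨a, -, ha⟩ := Finset.exists_min_image Finset.univ S hne
  have hca : (Finset.univ.erase a : Finset ι).card = r - 2 := by
    rw [Finset.card_erase_of_mem (Finset.mem_univ a), Finset.card_univ, hι]
    omega
  have hne2 : (Finset.univ.erase a : Finset ι).Nonempty := by
    rw [← Finset.card_pos, hca]
    omega
  obtain ⟨b, hb1, hb⟩ := Finset.exists_min_image (Finset.univ.erase a) S hne2
  have hcb : ((Finset.univ.erase a).erase b : Finset ι).card = r - 3 := by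
    rw [Finset.card_erase_of_mem hb1, hca]
    omega
  have hba : b ≠ a := Finset.ne_of_mem_erase hb1
  have e2 : ((r - 2 : ℕ) : ℝ) = (r : ℝ) - 2 := by
    rw [Nat.cast_sub (by omega)]
    norm_num
  have e3 : ((r - 3 : ℕ) : ℝ) = (r : ℝ) - 3 := by
    rw [Nat.cast_sub (by omega)]
    norm_num
  have hl : ∀ l, l ≠ a → P l + S l ≤ (L - S b) / r := by
    intro l hla
    have h1 := h l
    have h2 := hb l (Finset.mem_erase.2 ⟨hla, Finset.mem_univ l⟩)
    rw [le_div_iff₀ hr0]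
    nlinarith
  have hsa : ∑ l, (P l + S l) = (P a + S a) + ∑ l ∈ Finset.univ.erase a, (P l + S l) :=
    (Finset.add_sum_erase Finset.univ (fun l => P l + S l) (Finset.mem_univ a)).symm
  have hsb : ∑ l ∈ Finset.univ.erase a, (P l + S l)
      = (P b + S b) + ∑ l ∈ (Finset.univ.erase a).erase b, (P l + S l) :=
    (Finset.add_sum_erase (Finset.univ.erase a) (fun l => P l + S l) hb1).symm
  by_cases hcase : L ≤ (2 * (r : ℝ) + 1) * S b
  · left
    refine ⟨a, ?_⟩
    rw [hsa]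
    have h1 : ∑ l ∈ Finset.univ.erase a, (P l + S l)
        ≤ ((Finset.univ.erase a : Finset ι).card : ℝ) * ((L - S b) / r) := by
      rw [← nsmul_eq_mul]
      exact Finset.sum_le_card_nsmul _ _ _ (fun l hl' => hl l (Finset.ne_of_mem_erase hl'))
    rw [hca, e2] at h1
    have h2 : (L - S b) / r ≤ 2 / (2 * (r : ℝ) + 1) * L := by
      rw [div_le_iff₀ hr0, div_mul_eq_mul_div, div_mul_eq_mul_div, le_div_iff₀ h2r]
      nlinarith
    have h3 : ((r : ℝ) - 2) * ((L - S b) / r) ≤ ((r : ℝ) - 2) * (2 / (2 * (r : ℝ) + 1) * L) :=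
      mul_le_mul_of_nonneg_left h2 (by linarith)
    have h4 : ((r : ℝ) - 2) * (2 / (2 * (r : ℝ) + 1) * L)
        = 2 * ((r : ℝ) - 2) / (2 * (r : ℝ) + 1) * L := by ring
    linarith
  · right
    refine ⟨a, b, hba.symm, ?_⟩
    push Not at hcase
    rw [hsa, hsb]
    have h1 : ∑ l ∈ (Finset.univ.erase a).erase b, (P l + S l)
        ≤ (((Finset.univ.erase a).erase b : Finset ι).card : ℝ) * ((L - S b) / r) := by
      rw [← nsmul_eq_mul]
      exact Finset.sum_le_card_nsmul _ _ _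
        (fun l hl' => hl l (Finset.ne_of_mem_erase (Finset.mem_of_mem_erase hl')))
    rw [hcb, e3] at h1
    have h2 : S a ≤ S b := ha b (Finset.mem_univ b)
    have h3 : 2 * S b + ((r : ℝ) - 3) * ((L - S b) / r)
        ≤ 2 * ((r : ℝ) - 2) / (2 * (r : ℝ) + 1) * L := by
      have h4 : 2 * S b + ((r : ℝ) - 3) * ((L - S b) / r)
          = (2 * r * S b + ((r : ℝ) - 3) * (L - S b)) / r := by
        field_simp
      rw [h4, div_le_iff₀ hr0, div_mul_eq_mul_div, div_mul_eq_mul_div, le_div_iff₀ h2r]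
      have h5 : ((r : ℝ) + 3) * ((2 * (r : ℝ) + 1) * S b) ≤ ((r : ℝ) + 3) * L :=
        mul_le_mul_of_nonneg_left hcase.le (by linarith)
      nlinarith
    linarith

end Pool.Agent.H6.PW
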