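import Mathlib
import Pool.Agent.H6.PW.TupDefs
import Pool.Agent.H6.PW.ProdCount
import Pool.Agent.H6.PW.PairCount

/-!
Module `PairTup` (150 lines; independent of the proofs of `ProdCount`, `PairCount`). Tuples in which
the `r`-th power parts of two entries `i ≠ j` are free.

PROOF. Send `m ∈ T` to `f : ι ⊕ ι × Fin (r-1) → ℕ`, `f (inl l) = if l = i ∨ l = j then 1 else x (m l)`,
`f (inr (l, j')) = t (m l) j'`. By `prod_count` there are at most `C1 Z^(1+ε/2)` values.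
Fibre: fix `m0` in it; every `m` in the fibre has `m l = m0 l` for `l ≠ i, j` and
`m i = A u^r`, `m j = B v^r` with `u = x (m i)`, `v = x (m j)`,
`A = ∏ j', t (m0 i) j' ^ (r+1+j')`, `B` likewise, `u, v ≤ X` (`u ≤ u^r ≤ m i`). The sum relation:
if `i = some a`, `j = some b`: `A u^r + B v^r = n` with `n = m0 none - ∑_{c ≠ a,b} m0 (some c) ≥ 1`
(`= m0 i + m0 j`); if `i = none`, `j = some b`: `A u^r - B v^r = n` with
`n = ∑_{c ≠ b} m0 (some c) ≥ 1` (there is such a `c` because `r - 2 ≥ 2`); symmetric if `j = none`.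
In all cases `1 ≤ n ≤ X`. `m ↦ (u, v)` is injective on the fibre, so `pair_count` with `k = r`
bounds the fibre by `C2 X^(ε/2) n^(ε/2) ≤ C2 X^ε`. Then
`Finset.card_le_mul_card_image`-type argument (in reals: `Finset.card_eq_sum_card_fiberwise`).
`Z^(1+ε/2) ≤ Z^(1+ε)` since `Z ≥ 1`.
-/

set_option autoImplicit false

namespace Pool.Agent.H6.PW

private theorem ptup_two {k : ℕ} {F G : Fin k → ℕ} {a b : Fin k} (hab : a ≠ b)
    (h : ∀ c, c ≠ a → c ≠ b → F c = G c) (hs : ∑ c, F c = ∑ c, G c) :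
    F a + F b = G a + G b := by
  have hb : b ∈ Finset.univ.erase a := Finset.mem_erase.2 ⟨hab.symm, Finset.mem_univ b⟩
  rw [← Finset.add_sum_erase _ _ (Finset.mem_univ a), ← Finset.add_sum_erase _ _ hb,
    ← Finset.add_sum_erase _ G (Finset.mem_univ a), ← Finset.add_sum_erase _ G hb] at hs
  have h1 : ∑ c ∈ (Finset.univ.erase a).erase b, F c = ∑ c ∈ (Finset.univ.erase a).erase b, G c := by
    refine Finset.sum_congr rfl fun c hc => ?_
    rw [Finset.mem_erase, Finset.mem_erase] at hc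
    exact h c hc.2.1 hc.1
  omega

private theorem ptup_inj {r : ℕ} {i j : Option (Fin (r - 2))}
    {S : Finset (Option (Fin (r - 2)) → ℕ)} {A B : ℕ} {x : ℕ → ℕ}
    {m0 : Option (Fin (r - 2)) → ℕ}
    (h : ∀ m ∈ S, (∀ l, l ≠ i → l ≠ j → m l = m0 l) ∧ m i = A * x (m i) ^ r ∧
      m j = B * x (m j) ^ r) :
    Set.InjOn (fun m : Option (Fin (r - 2)) → ℕ => (x (m i), x (m j))) S := by
  intro m hm m' hm' he
  simp only [Prod.mk.injEq] at he
  obtain ⟨h1, h2, h3⟩ := h m hm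
  obtain ⟨h1', h2', h3'⟩ := h m' hm'
  funext l
  by_cases hi : l = i
  · rw [hi, h2, h2', he.1]
  · by_cases hj : l = j
    · rw [hj, h3, h3', he.2]
    · rw [h1 l hi hj, h1' l hi hj]

private theorem ptup_le {r X A u v : ℕ} (hr : 4 ≤ r) (hA : 1 ≤ A) (h : v = A * u ^ r)
    (hv : v ≤ X) : u ≤ X := by
  have h1 : u ≤ u ^ r := Nat.le_self_pow (by omega) u
  nlinarith

/-- the sum and one summand are free -/
private theorem ptup_none {r : ℕ} (hr : 4 ≤ r) {ε C : ℝ} (hε : 0 < ε)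
    (hC : ∀ X A B n : ℕ, 1 ≤ X → 1 ≤ A → 1 ≤ B → 1 ≤ n →
      ∀ s : ℤ, (s = 1 ∨ s = -1) → ∀ T : Finset (ℕ × ℕ),
        (∀ q ∈ T, 1 ≤ q.1 ∧ q.1 ≤ X ∧ 1 ≤ q.2 ∧ q.2 ≤ X ∧
          (A : ℤ) * (q.1 : ℤ) ^ r + s * B * (q.2 : ℤ) ^ r = n) →
        (T.card : ℝ) ≤ C * (X : ℝ) ^ (ε / 2) * (n : ℝ) ^ (ε / 2)) (hC1 : 1 ≤ C)
    {X : ℕ} (hX : 1 ≤ X) (b : Fin (r - 2))
    {S : Finset (Option (Fin (r - 2)) → ℕ)} (hS : S ⊆ Tup r X) {A B : ℕ} (hA : 1 ≤ A)
    (hB : 1 ≤ B) {x : ℕ → ℕ} (hx : ∀ m, 1 ≤ x m) {m0 : Option (Fin (r - 2)) → ℕ}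
    (hm0 : m0 ∈ Tup r X)
    (h : ∀ m ∈ S, (∀ l, l ≠ none → l ≠ some b → m l = m0 l) ∧ m none = A * x (m none) ^ r ∧
      m (some b) = B * x (m (some b)) ^ r) :
    (S.card : ℝ) ≤ C * (X : ℝ) ^ ε := by
  classical
  rw [mem_Tup] at hm0
  obtain ⟨c0, hc0⟩ : ∃ c0 : Fin (r - 2), c0 ≠ b := by
    have : Nontrivial (Fin (r - 2)) := Fin.nontrivial_iff_two_le.2 (by omega)
    exact exists_ne b
  have hn1 : 1 ≤ ∑ c ∈ Finset.univ.erase b, m0 (some c) := by
    refine (hm0.1 (some c0)).1.trans ?_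
    exact Finset.single_le_sum (f := fun c => m0 (some c)) (fun _ _ => Nat.zero_le _)
      (Finset.mem_erase.2 ⟨hc0, Finset.mem_univ _⟩)
  have hnX : ∑ c ∈ Finset.univ.erase b, m0 (some c) ≤ X := by
    have h1 := (hm0.1 none).2
    rw [hm0.2.2, ← Finset.add_sum_erase _ _ (Finset.mem_univ b)] at h1
    omega
  have key := hC X A B _ hX hA hB hn1 (-1) (Or.inr rfl)
    (S.image fun m => (x (m none), x (m (some b)))) (by
      intro q hq
      obtain ⟨m, hm, rfl⟩ := Finset.mem_image.1 hq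
      obtain ⟨h1, h2, h3⟩ := h m hm
      have hmT := mem_Tup.1 (hS hm)
      refine ⟨hx _, ptup_le hr hA h2 (hmT.1 none).2, hx _,
        ptup_le hr hB h3 (hmT.1 (some b)).2, ?_⟩
      have h4 := hmT.2.2
      rw [← Finset.add_sum_erase _ _ (Finset.mem_univ b)] at h4
      have h5 : ∑ c ∈ Finset.univ.erase b, m (some c) =
          ∑ c ∈ Finset.univ.erase b, m0 (some c) := by
        refine Finset.sum_congr rfl fun c hc => ?_
        exact h1 (some c) (by simp) (by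
          intro he
          exact (Finset.mem_erase.1 hc).1 (Option.some_injective _ he))
      rw [h5] at h4
      have h6 : (m none : ℤ) = (m (some b) : ℤ) +
          ((∑ c ∈ Finset.univ.erase b, m0 (some c) : ℕ) : ℤ) := by exact_mod_cast h4
      have h7 : (m none : ℤ) = (A : ℤ) * (x (m none) : ℤ) ^ r := by exact_mod_cast h2
      have h8 : (m (some b) : ℤ) = (B : ℤ) * (x (m (some b)) : ℤ) ^ r := by exact_mod_cast h3
      linarith)
  rw [Finset.card_image_of_injOn (ptup_inj h)] at key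
  have hX0 : (1 : ℝ) ≤ X := by exact_mod_cast hX
  have h9 : ((∑ c ∈ Finset.univ.erase b, m0 (some c) : ℕ) : ℝ) ^ (ε / 2) ≤ (X : ℝ) ^ (ε / 2) :=
    Real.rpow_le_rpow (by positivity) (by exact_mod_cast hnX) (by positivity)
  calc (S.card : ℝ) ≤ C * (X : ℝ) ^ (ε / 2) *
        ((∑ c ∈ Finset.univ.erase b, m0 (some c) : ℕ) : ℝ) ^ (ε / 2) := key
    _ ≤ C * (X : ℝ) ^ (ε / 2) * (X : ℝ) ^ (ε / 2) :=
        mul_le_mul_of_nonneg_left h9 (by positivity)
    _ = C * (X : ℝ) ^ ε := by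
        rw [mul_assoc, ← Real.rpow_add (by linarith), add_halves]

/-- two summands are free -/
private theorem ptup_some {r : ℕ} (hr : 4 ≤ r) {ε C : ℝ} (hε : 0 < ε)
    (hC : ∀ X A B n : ℕ, 1 ≤ X → 1 ≤ A → 1 ≤ B → 1 ≤ n →
      ∀ s : ℤ, (s = 1 ∨ s = -1) → ∀ T : Finset (ℕ × ℕ),
        (∀ q ∈ T, 1 ≤ q.1 ∧ q.1 ≤ X ∧ 1 ≤ q.2 ∧ q.2 ≤ X ∧
          (A : ℤ) * (q.1 : ℤ) ^ r + s * B * (q.2 : ℤ) ^ r = n) →
        (T.card : ℝ) ≤ C * (X : ℝ) ^ (ε / 2) * (n : ℝ) ^ (ε / 2)) (hC1 : 1 ≤ C)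
    {X : ℕ} (hX : 1 ≤ X) {a b : Fin (r - 2)} (hab : a ≠ b)
    {S : Finset (Option (Fin (r - 2)) → ℕ)} (hS : S ⊆ Tup r X) {A B : ℕ} (hA : 1 ≤ A)
    (hB : 1 ≤ B) {x : ℕ → ℕ} (hx : ∀ m, 1 ≤ x m) {m0 : Option (Fin (r - 2)) → ℕ}
    (hm0 : m0 ∈ Tup r X)
    (h : ∀ m ∈ S, (∀ l, l ≠ some a → l ≠ some b → m l = m0 l) ∧
      m (some a) = A * x (m (some a)) ^ r ∧ m (some b) = B * x (m (some b)) ^ r) :
    (S.card : ℝ) ≤ C * (X : ℝ) ^ ε := by
  classical
  rw [mem_Tup] at hm0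
  have hn1 : 1 ≤ m0 (some a) + m0 (some b) := by
    have := (hm0.1 (some a)).1
    omega
  have hnX : m0 (some a) + m0 (some b) ≤ X := by
    have h1 := (hm0.1 none).2
    have hb : b ∈ Finset.univ.erase a := Finset.mem_erase.2 ⟨hab.symm, Finset.mem_univ b⟩
    rw [hm0.2.2, ← Finset.add_sum_erase _ _ (Finset.mem_univ a),
      ← Finset.add_sum_erase _ _ hb] at h1
    omega
  have key := hC X A B _ hX hA hB hn1 1 (Or.inl rfl)
    (S.image fun m => (x (m (some a)), x (m (some b)))) (by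
      intro q hq
      obtain ⟨m, hm, rfl⟩ := Finset.mem_image.1 hq
      obtain ⟨h1, h2, h3⟩ := h m hm
      have hmT := mem_Tup.1 (hS hm)
      refine ⟨hx _, ptup_le hr hA h2 (hmT.1 (some a)).2, hx _,
        ptup_le hr hB h3 (hmT.1 (some b)).2, ?_⟩
      have h4 : m (some a) + m (some b) = m0 (some a) + m0 (some b) := by
        refine ptup_two (F := fun c => m (some c)) (G := fun c => m0 (some c)) hab
          (fun c hca hcb => h1 (some c) ?_ ?_) ?_
        · intro he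
          exact hca (Option.some_injective _ he)
        · intro he
          exact hcb (Option.some_injective _ he)
        · show ∑ c, m (some c) = ∑ c, m0 (some c)
          rw [← hmT.2.2, ← hm0.2.2]
          exact h1 none (by simp) (by simp)
      have h6 : (m (some a) : ℤ) + (m (some b) : ℤ) =
          ((m0 (some a) + m0 (some b) : ℕ) : ℤ) := by exact_mod_cast h4
      have h7 : (m (some a) : ℤ) = (A : ℤ) * (x (m (some a)) : ℤ) ^ r := by exact_mod_cast h2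
      have h8 : (m (some b) : ℤ) = (B : ℤ) * (x (m (some b)) : ℤ) ^ r := by exact_mod_cast h3
      linarith)
  rw [Finset.card_image_of_injOn (ptup_inj h)] at key
  have hX0 : (1 : ℝ) ≤ X := by exact_mod_cast hX
  have h9 : ((m0 (some a) + m0 (some b) : ℕ) : ℝ) ^ (ε / 2) ≤ (X : ℝ) ^ (ε / 2) :=
    Real.rpow_le_rpow (by positivity) (by exact_mod_cast hnX) (by positivity)
  calc (S.card : ℝ) ≤ C * (X : ℝ) ^ (ε / 2) *
        ((m0 (some a) + m0 (some b) : ℕ) : ℝ) ^ (ε / 2) := key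
    _ ≤ C * (X : ℝ) ^ (ε / 2) * (X : ℝ) ^ (ε / 2) :=
        mul_le_mul_of_nonneg_left h9 (by positivity)
    _ = C * (X : ℝ) ^ ε := by
        rw [mul_assoc, ← Real.rpow_add (by linarith), add_halves]

theorem pair_tup (r : ℕ) (hr : 4 ≤ r) (ε : ℝ) (hε : 0 < ε) :
    ∃ C : ℝ, 1 ≤ C ∧ ∀ (x : ℕ → ℕ) (t : ℕ → Fin (r - 1) → ℕ), IsDec r x t →
      ∀ (X : ℕ) (Z : ℝ), 1 ≤ X → 1 ≤ Z → ∀ i j : Option (Fin (r - 2)), i ≠ j →
      ∀ T : Finset (Option (Fin (r - 2)) → ℕ), T ⊆ Tup r X →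
        (∀ m ∈ T, ((∏ l, ((if l = i ∨ l = j then 1 else x (m l)) * ∏ j', t (m l) j') : ℕ) : ℝ)
          ≤ Z) →
        (T.card : ℝ) ≤ C * (X : ℝ) ^ ε * Z ^ (1 + ε) := by
  obtain ⟨C1, hC1, hP⟩ := prod_count (Option (Fin (r - 2)) ⊕ (Option (Fin (r - 2)) × Fin (r - 1)))
    ε hε
  obtain ⟨C2, hC2, hQ⟩ := pair_count r hr (ε / 2) (by positivity)
  refine ⟨C1 * C2, by nlinarith, ?_⟩
  intro x t hdec X Z hX hZ i j hij T hT hTZ
  obtain ⟨φ, hφ⟩ : ∃ φ : (Option (Fin (r - 2)) → ℕ) →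
      (Option (Fin (r - 2)) ⊕ (Option (Fin (r - 2)) × Fin (r - 1)) → ℕ), φ = fun m =>
        Sum.elim (fun l => if l = i ∨ l = j then 1 else x (m l)) (fun p => t (m p.1) p.2) :=
    ⟨_, rfl⟩
  have hU := hP Z hZ (T.image φ) (by
    intro f hf
    obtain ⟨m, hm, rfl⟩ := Finset.mem_image.1 hf
    refine ⟨?_, ?_⟩
    · rintro (l | p)
      · rw [hφ]
        simp only [Sum.elim_inl]
        split_ifs
        · exact le_rfl
        · exact hdec.1 _
      · rw [hφ]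
        exact hdec.2.1 _ _
    · have h1 := hTZ m hm
      have h2 : (∏ l, ((if l = i ∨ l = j then 1 else x (m l)) * ∏ j', t (m l) j') : ℕ) =
          ∏ k, φ m k := by
        rw [hφ, Fintype.prod_sum_type, Fintype.prod_prod_type, Finset.prod_mul_distrib]
        rfl
      rw [h2] at h1
      exact h1)
  have hfib : ∀ f ∈ T.image φ, ((T.filter fun m => φ m = f).card : ℝ) ≤ C2 * (X : ℝ) ^ ε := by
    intro f hf
    obtain ⟨m0, hm0, rfl⟩ := Finset.mem_image.1 hf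
    have hm0T := hT hm0
    have hS : (T.filter fun m => φ m = φ m0) ⊆ Tup r X := (Finset.filter_subset _ _).trans hT
    have ht : ∀ m ∈ T.filter (fun m => φ m = φ m0), ∀ l j', t (m l) j' = t (m0 l) j' := by
      intro m hm l j'
      have h1 := congrFun (Finset.mem_filter.1 hm).2 (Sum.inr (l, j'))
      rw [hφ] at h1
      exact h1
    have hxx : ∀ m ∈ T.filter (fun m => φ m = φ m0), ∀ l, l ≠ i → l ≠ j → x (m l) = x (m0 l) := by
      intro m hm l hli hlj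
      have h1 := congrFun (Finset.mem_filter.1 hm).2 (Sum.inl l)
      rw [hφ] at h1
      simp only [Sum.elim_inl] at h1
      rw [if_neg (not_or.2 ⟨hli, hlj⟩), if_neg (not_or.2 ⟨hli, hlj⟩)] at h1
      exact h1
    have hform : ∀ m ∈ T.filter (fun m => φ m = φ m0), ∀ l,
        m l = (∏ j', t (m0 l) j' ^ (r + 1 + (j' : ℕ))) * x (m l) ^ r := by
      intro m hm l
      have h1 := hdec.2.2 (m l) ((mem_Tup.1 (hS hm)).2.1 l)
      rw [mul_comm] at h1
      rw [Finset.prod_congr rfl fun j' _ => by rw [ht m hm l j']] at h1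
      exact h1
    have hm0f : m0 ∈ T.filter (fun m => φ m = φ m0) := Finset.mem_filter.2 ⟨hm0, rfl⟩
    have hpos : ∀ l, 1 ≤ ∏ j', t (m0 l) j' ^ (r + 1 + (j' : ℕ)) := fun l =>
      Finset.one_le_prod' fun j' _ => Nat.one_le_pow _ _ (hdec.2.1 _ _)
    have heq : ∀ m ∈ T.filter (fun m => φ m = φ m0), ∀ l, l ≠ i → l ≠ j → m l = m0 l := by
      intro m hm l hli hlj
      rw [hform m hm l, hxx m hm l hli hlj]
      exact (hform m0 hm0f l).symm
    rcases i with _ | a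
    · rcases j with _ | b
      · exact (hij rfl).elim
      · exact ptup_none hr hε hQ hC2 hX b hS (hpos none) (hpos (some b)) hdec.1 hm0T
          fun m hm => ⟨heq m hm, hform m hm none, hform m hm (some b)⟩
    · rcases j with _ | b
      · exact ptup_none hr hε hQ hC2 hX a hS (hpos none) (hpos (some a)) hdec.1 hm0T
          fun m hm => ⟨fun l h1 h2 => heq m hm l h2 h1, hform m hm none, hform m hm (some a)⟩
      · exact ptup_some hr hε hQ hC2 hX (fun h => hij (by rw [h])) hS (hpos (some a))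
          (hpos (some b)) hdec.1 hm0T
          fun m hm => ⟨heq m hm, hform m hm (some a), hform m hm (some b)⟩
  have hX0 : (1 : ℝ) ≤ X := by exact_mod_cast hX
  rw [Finset.card_eq_sum_card_image φ T]
  push_cast
  calc ∑ f ∈ T.image φ, ((T.filter fun m => φ m = f).card : ℝ)
      ≤ ∑ _f ∈ T.image φ, C2 * (X : ℝ) ^ ε := Finset.sum_le_sum hfib
    _ = ((T.image φ).card : ℝ) * (C2 * (X : ℝ) ^ ε) := by
        rw [Finset.sum_const, nsmul_eq_mul]
    _ ≤ C1 * Z ^ (1 + ε) * (C2 * (X : ℝ) ^ ε) :=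
        mul_le_mul_of_nonneg_right hU (by positivity)
    _ = C1 * C2 * (X : ℝ) ^ ε * Z ^ (1 + ε) := by ring

end Pool.Agent.H6.PW
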