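import Mathlib
import Pool.Agent.H6.PW.Omit
import Pool.Agent.H6.PW.PairTup
import Pool.Agent.H6.PW.LPr
import Pool.Agent.H6.PW.CntTup
import Pool.Agent.H6.PW.Decomp

/-!
Module `FinR` (150 lines; independent of the proofs of its imports). The theorem for all `r ≥ 4`.

PROOF. Take `x, t` from `decomp_fun`. Put `θ = 2(r-2)/(2r+1)`, `Z = X^θ`, `ε' = ε/3`.
For `m ∈ Tup r X` put `P l = log (x (m l))`, `S l = log (∏ j, t (m l) j)`, `L = log X`. Then
`r P l + (r+1) S l ≤ log (m l) ≤ L` because `m l = x^r ∏ t_j^(r+1+j) ≥ x^r (∏ t_j)^(r+1)`.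
By `lp_r` one of finitely many alternatives holds; exponentiating, `m` belongs to
`T_i = {m : ∏_{l ≠ i} (x (m l) ∏ t) ≤ Z}` or `T_{ij} = {m : ∏_l ((if l = i ∨ l = j then 1 else x (m l)) ∏ t) ≤ Z}`.
So `(Tup r X).card ≤ ∑_i |T_i| + ∑_{i ≠ j} |T_ij| ≤ (number) * C X^ε' Z^(1+ε')`, and
`X^ε' Z^(1+ε') = X^(θ + ε' + θ ε') ≤ X^(θ + (r+1) ε')`... choose `ε' = ε/(1+θ)`-like small, e.g.
`ε' = ε / r` (as `θ ≤ 1`, `ε' (1 + θ) ≤ ε` for `r ≥ 4`). Note `θ < 1`.
-/

set_option autoImplicit false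

namespace Pool.Agent.H6.PW

private theorem fr_entry {r : ℕ} {x : ℕ → ℕ} {t : ℕ → Fin (r - 1) → ℕ} (hD : IsDec r x t)
    {X n : ℕ} (hn : Powerful r n) (hX : n ≤ X) :
    (r : ℝ) * Real.log (x n) + ((r : ℝ) + 1) * Real.log ((∏ j, t n j : ℕ) : ℝ) ≤
      Real.log X := by
  obtain ⟨hx, ht, hdec⟩ := hD
  have hx0 : (0 : ℝ) < (x n : ℝ) := by exact_mod_cast hx n
  have hP : 1 ≤ ∏ j, t n j := Nat.one_le_iff_ne_zero.2
    (Finset.prod_ne_zero_iff.2 fun j _ => Nat.one_le_iff_ne_zero.1 (ht n j))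
  have hp0 : (0 : ℝ) < ((∏ j, t n j : ℕ) : ℝ) := by exact_mod_cast hP
  have h1 : (x n) ^ r * (∏ j, t n j) ^ (r + 1) ≤ n := by
    conv_rhs => rw [hdec n hn]
    refine Nat.mul_le_mul_left _ ?_
    rw [← Finset.prod_pow]
    refine Finset.prod_le_prod' fun j _ => ?_
    exact Nat.pow_le_pow_right (ht n j) (by omega)
  have h2 : ((x n : ℝ)) ^ r * (((∏ j, t n j : ℕ) : ℝ)) ^ (r + 1) ≤ (X : ℝ) := by
    exact_mod_cast h1.trans hX
  have h3 := Real.log_le_log (by positivity) h2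
  rw [Real.log_mul (by positivity) (by positivity), Real.log_pow, Real.log_pow] at h3
  push_cast at h3 ⊢
  exact h3

private theorem fr_alt (r : ℕ) (hr : 4 ≤ r) {x : ℕ → ℕ} {t : ℕ → Fin (r - 1) → ℕ}
    (hD : IsDec r x t) (X : ℕ) (hX : 1 ≤ X) (m : Option (Fin (r - 2)) → ℕ) (hm : m ∈ Tup r X) :
    (∃ i, ((∏ l ∈ Finset.univ.erase i, (x (m l) * ∏ j, t (m l) j) : ℕ) : ℝ) ≤
      (X : ℝ) ^ (2 * ((r : ℝ) - 2) / (2 * (r : ℝ) + 1))) ∨
    (∃ i j, i ≠ j ∧
      ((∏ l, ((if l = i ∨ l = j then 1 else x (m l)) * ∏ j', t (m l) j') : ℕ) : ℝ) ≤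
      (X : ℝ) ^ (2 * ((r : ℝ) - 2) / (2 * (r : ℝ) + 1))) := by
  classical
  rw [mem_Tup] at hm
  obtain ⟨hb, hpow, -⟩ := hm
  have hX1 : (1 : ℝ) ≤ (X : ℝ) := by exact_mod_cast hX
  have hX0 : (0 : ℝ) < (X : ℝ) := by linarith
  set θ : ℝ := 2 * ((r : ℝ) - 2) / (2 * (r : ℝ) + 1) with hθ
  have hx1 : ∀ n, (1 : ℝ) ≤ (x n : ℝ) := fun n => by exact_mod_cast hD.1 n
  have ht1 : ∀ n, (1 : ℝ) ≤ ((∏ j, t n j : ℕ) : ℝ) := by
    intro n
    have : 1 ≤ ∏ j, t n j := Nat.one_le_iff_ne_zero.2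
      (Finset.prod_ne_zero_iff.2 fun j _ => Nat.one_le_iff_ne_zero.1 (hD.2.1 n j))
    exact_mod_cast this
  have hx0 : ∀ n, (0 : ℝ) < (x n : ℝ) := fun n => lt_of_lt_of_le one_pos (hx1 n)
  have ht0 : ∀ n, (0 : ℝ) < ((∏ j, t n j : ℕ) : ℝ) := fun n => lt_of_lt_of_le one_pos (ht1 n)
  let P : Option (Fin (r - 2)) → ℝ := fun l => Real.log (x (m l))
  let S : Option (Fin (r - 2)) → ℝ := fun l => Real.log ((∏ j, t (m l) j : ℕ) : ℝ)
  have hcard : Fintype.card (Option (Fin (r - 2))) = r - 1 := by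
    simp only [Fintype.card_option, Fintype.card_fin]
    omega
  have hexp : ∀ A : ℝ, 0 < A → Real.log A ≤ θ * Real.log X → A ≤ (X : ℝ) ^ θ := by
    intro A hA hle
    rw [← Real.log_rpow hX0] at hle
    exact (Real.log_le_log_iff hA (Real.rpow_pos_of_pos hX0 _)).1 hle
  rcases lp_r (Option (Fin (r - 2))) r hr hcard (Real.log X) (Real.log_nonneg hX1) P S
    (fun l => Real.log_nonneg (hx1 _)) (fun l => Real.log_nonneg (ht1 _))
    (fun l => fr_entry hD (hpow l) (hb l).2) with ⟨i, hi⟩ | ⟨i, j, hij, hi⟩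
  · left
    refine ⟨i, hexp _ ?_ ?_⟩
    · rw [Nat.cast_prod]
      refine Finset.prod_pos fun l _ => ?_
      rw [Nat.cast_mul]
      exact mul_pos (hx0 _) (ht0 _)
    · rw [Nat.cast_prod, Real.log_prod (by
        intro l _
        rw [Nat.cast_mul]
        exact (mul_pos (hx0 _) (ht0 _)).ne')]
      have e1 : ∀ l : Option (Fin (r - 2)),
          Real.log ((x (m l) * ∏ j, t (m l) j : ℕ) : ℝ) = P l + S l := by
        intro l
        rw [Nat.cast_mul, Real.log_mul (hx0 _).ne' (ht0 _).ne']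
      simp only [e1]
      rw [Finset.sum_erase_eq_sub (Finset.mem_univ i)]
      exact hi
  · right
    have hone : ∀ l, (0 : ℝ) < (((if l = i ∨ l = j then 1 else x (m l) : ℕ)) : ℝ) := by
      intro l
      split_ifs
      · simp
      · exact hx0 _
    refine ⟨i, j, hij, hexp _ ?_ ?_⟩
    · rw [Nat.cast_prod]
      refine Finset.prod_pos fun l _ => ?_
      rw [Nat.cast_mul]
      exact mul_pos (hone _) (ht0 _)
    · rw [Nat.cast_prod, Real.log_prod (by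
        intro l _
        rw [Nat.cast_mul]
        exact (mul_pos (hone _) (ht0 _)).ne')]
      have e1 : ∀ l : Option (Fin (r - 2)),
          Real.log (((if l = i ∨ l = j then 1 else x (m l)) * ∏ j', t (m l) j' : ℕ) : ℝ) =
            (P l + S l) - (if l = i then P l else 0) - (if l = j then P l else 0) := by
        intro l
        rw [Nat.cast_mul, Real.log_mul (hone _).ne' (ht0 _).ne']
        by_cases h1 : l = i
        · have h2 : l ≠ j := fun h => hij (h1.symm.trans h)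
          simp only [h1, true_or, if_true, Nat.cast_one, Real.log_one]
          rw [if_neg (by rw [← h1]; exact h2)]
          simp only [S]
          ring
        · by_cases h2 : l = j
          · simp only [h2, or_true, if_true, Nat.cast_one, Real.log_one]
            rw [if_neg (by rw [← h2]; exact h1)]
            simp only [S]
            ring
          · rw [if_neg (by tauto), if_neg h1, if_neg h2]
            simp only [P, S]
            ring
      simp only [e1]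
      rw [Finset.sum_sub_distrib, Finset.sum_sub_distrib, Finset.sum_ite_eq' Finset.univ i P,
        Finset.sum_ite_eq' Finset.univ j P]
      simp only [Finset.mem_univ, if_true]
      exact hi

theorem tup_bound (r : ℕ) (hr : 4 ≤ r) (ε : ℝ) (hε : 0 < ε) :
    ∃ C : ℝ, ∀ X : ℕ, 1 ≤ X →
      ((Tup r X).card : ℝ) ≤ C * (X : ℝ) ^ (2 * ((r : ℝ) - 2) / (2 * (r : ℝ) + 1) + ε) := by
  classical
  obtain ⟨x, t, hD⟩ := decomp_fun r (by omega)
  obtain ⟨C1, hC1, h1⟩ := omit_tup r hr (ε / 2) (by linarith)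
  obtain ⟨C2, hC2, h2⟩ := pair_tup r hr (ε / 2) (by linarith)
  set N : ℝ := (Fintype.card (Option (Fin (r - 2))) : ℝ) with hN
  have hN0 : 0 ≤ N := Nat.cast_nonneg _
  refine ⟨N * C1 + N * N * C2, fun X hX => ?_⟩
  have hX1 : (1 : ℝ) ≤ (X : ℝ) := by exact_mod_cast hX
  have hX0 : (0 : ℝ) < (X : ℝ) := by linarith
  set θ : ℝ := 2 * ((r : ℝ) - 2) / (2 * (r : ℝ) + 1) with hθ
  have hr4 : (4 : ℝ) ≤ (r : ℝ) := by exact_mod_cast hr
  have hθ0 : 0 ≤ θ := div_nonneg (by linarith) (by linarith)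
  have hθ1 : θ ≤ 1 := (div_le_one (by linarith)).2 (by linarith)
  set Z : ℝ := (X : ℝ) ^ θ with hZ
  have hZ1 : 1 ≤ Z := Real.one_le_rpow hX1 hθ0
  have hE : (X : ℝ) ^ (ε / 2) * Z ^ (1 + ε / 2) ≤ (X : ℝ) ^ (θ + ε) := by
    rw [hZ, ← Real.rpow_mul hX0.le, ← Real.rpow_add hX0]
    refine Real.rpow_le_rpow_of_exponent_le hX1 ?_
    nlinarith
  have hE1 : Z ^ (1 + ε / 2) ≤ (X : ℝ) ^ (θ + ε) := by
    refine le_trans ?_ hE
    have h5 : (1 : ℝ) ≤ (X : ℝ) ^ (ε / 2) := Real.one_le_rpow hX1 (by linarith)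
    have h6 : 0 ≤ Z ^ (1 + ε / 2) := Real.rpow_nonneg (by linarith) _
    nlinarith
  let A : Option (Fin (r - 2)) → Finset (Option (Fin (r - 2)) → ℕ) := fun i =>
    (Tup r X).filter fun m =>
      ((∏ l ∈ Finset.univ.erase i, (x (m l) * ∏ j, t (m l) j) : ℕ) : ℝ) ≤ Z
  let B : Option (Fin (r - 2)) × Option (Fin (r - 2)) → Finset (Option (Fin (r - 2)) → ℕ) :=
    fun p => (Tup r X).filter fun m => p.1 ≠ p.2 ∧
      ((∏ l, ((if l = p.1 ∨ l = p.2 then 1 else x (m l)) * ∏ j', t (m l) j') : ℕ) : ℝ) ≤ Z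
  have hsub : Tup r X ⊆ (Finset.univ.biUnion A) ∪ (Finset.univ.biUnion B) := by
    intro m hm
    rcases fr_alt r hr hD X hX m hm with ⟨i, hi⟩ | ⟨i, j, hij, hi⟩
    · exact Finset.mem_union_left _ (Finset.mem_biUnion.2 ⟨i, Finset.mem_univ _,
        Finset.mem_filter.2 ⟨hm, hi⟩⟩)
    · exact Finset.mem_union_right _ (Finset.mem_biUnion.2 ⟨(i, j), Finset.mem_univ _,
        Finset.mem_filter.2 ⟨hm, hij, hi⟩⟩)
  have hA : ∀ i, ((A i).card : ℝ) ≤ C1 * (X : ℝ) ^ (θ + ε) := by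
    intro i
    refine (h1 x t hD X Z hX hZ1 i (A i) (Finset.filter_subset _ _)
      (fun m hm => (Finset.mem_filter.1 hm).2)).trans ?_
    exact mul_le_mul_of_nonneg_left hE1 (by linarith)
  have hB : ∀ p, ((B p).card : ℝ) ≤ C2 * (X : ℝ) ^ (θ + ε) := by
    intro p
    by_cases hp : p.1 = p.2
    · have : B p = ∅ := by
        refine Finset.filter_eq_empty_iff.2 fun m _ hc => hc.1 hp
      rw [this, Finset.card_empty, Nat.cast_zero]
      have : 0 ≤ (X : ℝ) ^ (θ + ε) := Real.rpow_nonneg hX0.le _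
      nlinarith
    · refine (h2 x t hD X Z hX hZ1 p.1 p.2 hp (B p) (Finset.filter_subset _ _)
        (fun m hm => (Finset.mem_filter.1 hm).2.2)).trans ?_
      rw [mul_assoc]
      exact mul_le_mul_of_nonneg_left hE (by linarith)
  have hc1 : ((Tup r X).card : ℝ) ≤ ∑ i, ((A i).card : ℝ) + ∑ p, ((B p).card : ℝ) := by
    have h5 : (Tup r X).card ≤ ∑ i, (A i).card + ∑ p, (B p).card :=
      (Finset.card_le_card hsub).trans ((Finset.card_union_le _ _).trans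
        (add_le_add Finset.card_biUnion_le Finset.card_biUnion_le))
    exact_mod_cast h5
  have hc2 : ∑ i, ((A i).card : ℝ) ≤ N * (C1 * (X : ℝ) ^ (θ + ε)) := by
    refine (Finset.sum_le_sum fun i _ => hA i).trans ?_
    rw [Finset.sum_const, nsmul_eq_mul, Finset.card_univ]
  have hc3 : ∑ p, ((B p).card : ℝ) ≤ N * N * (C2 * (X : ℝ) ^ (θ + ε)) := by
    refine (Finset.sum_le_sum fun i _ => hB i).trans ?_
    rw [Finset.sum_const, nsmul_eq_mul, Finset.card_univ, Fintype.card_prod, Nat.cast_mul]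
  calc ((Tup r X).card : ℝ) ≤ N * (C1 * (X : ℝ) ^ (θ + ε)) + N * N * (C2 * (X : ℝ) ^ (θ + ε)) := by
        linarith
    _ = (N * C1 + N * N * C2) * (X : ℝ) ^ (θ + ε) := by ring

theorem cnt_bound (r : ℕ) (hr : 4 ≤ r) (ε : ℝ) (hε : 0 < ε) :
    ∃ C : ℝ, ∀ X : ℕ, 1 ≤ X →
      (cnt r X : ℝ) ≤ C * (X : ℝ) ^ (2 * ((r : ℝ) - 2) / (2 * (r : ℝ) + 1) + ε) := by
  obtain ⟨C, hC⟩ := tup_bound r hr ε hε
  refine ⟨C, fun X hX => le_trans ?_ (hC X hX)⟩
  exact_mod_cast cnt_le_Tup r X hr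

end Pool.Agent.H6.PW
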